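import Pool.Agent.H6.CF.Grow

/-!
# Annuli
-/

set_option autoImplicit false

namespace Pool.Agent.H6.CF

open Function Set

variable {V : Type*} {G : Type*} [Group G] [MulAction G V] {Γ : SimpleGraph V}

/-- an element which translates a vertical segment horizontally and an element which translates a
strip vertically generate `ℤ²` -/
theorem z2_block (hA : Act G Γ) (ht : TFree G) {h : ℤ × ℤ → V} (hh : IsFlat Γ h) (hc : Conv Γ h)
    {g c : G} {x x' a b : ℤ} (hx : x < x') (hab : a < b)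
    (g1 : g • h (x, a) = h (x', a)) (g2 : g • h (x, a + 1) = h (x', a + 1))
    (g3 : g • h (x, b) = h (x', b))
    (c1 : c • h (x, a) = h (x, b)) (c2 : c • h (x, a + 1) = h (x, b + 1))
    (c3 : c • h (x', a) = h (x', b)) :
    ∃ φ : Multiplicative (ℤ × ℤ) →* G, Injective φ := by
  have hcomm : Commute c g := by
    have : c * g = g * c := ht.eq hA (v := h (x, a)) (by
      rw [mul_smul, mul_smul, g1, c3, c1, g3])
    exact this
  have hgd : ∀ v, ∃ (e : ℕ) (p : ℤ × ℤ), ∀ z : ℤ × ℤ,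
      (Γ.dist v (h z) : ℤ) = e + |p.1 - z.1| + |p.2 - z.2| := fun v => gate_dist hA.med hh hc v
  refine z2_of (t := c) (z := g) hcomm {v | Γ.dist v (h (x, a + 1)) < Γ.dist v (h (x, a))}
    ?_ (p := h (x, a + 1)) ?_ ?_ ?_ ?_
  · intro v hv
    have hv' : Γ.dist v (h (x, a + 1)) < Γ.dist v (h (x, a)) := hv
    rw [← hA.dist c, ← hA.dist c v (h (x, a)), c1, c2] at hv'
    change Γ.dist (c • v) (h (x, a + 1)) < Γ.dist (c • v) (h (x, a))
    obtain ⟨e, p, hp⟩ := hgd (c • v)
    have h1 := hp (x, a + 1)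
    have h2 := hp (x, a)
    have h3 := hp (x, b + 1)
    have h4 := hp (x, b)
    simp only [Int.abs_eq_natAbs] at h1 h2 h3 h4
    omega
  · change Γ.dist (h (x, a + 1)) (h (x, a + 1)) < Γ.dist (h (x, a + 1)) (h (x, a))
    have h1 := hh (x, a + 1) (x, a + 1)
    have h2 := hh (x, a + 1) (x, a)
    simp only [Int.abs_eq_natAbs] at h1 h2
    omega
  · change ¬ Γ.dist (c⁻¹ • h (x, a + 1)) (h (x, a + 1)) < Γ.dist (c⁻¹ • h (x, a + 1)) (h (x, a))
    rw [← hA.dist c, ← hA.dist c (c⁻¹ • h (x, a + 1)) (h (x, a)), smul_inv_smul, c1, c2]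
    have h1 := hh (x, a + 1) (x, b + 1)
    have h2 := hh (x, a + 1) (x, b)
    simp only [Int.abs_eq_natAbs] at h1 h2
    omega
  · intro v
    change Γ.dist v (h (x, a + 1)) < Γ.dist v (h (x, a)) ↔
      Γ.dist (g • v) (h (x, a + 1)) < Γ.dist (g • v) (h (x, a))
    rw [← hA.dist g v, ← hA.dist g v (h (x, a)), g1, g2]
    obtain ⟨e, p, hp⟩ := hgd (g • v)
    have h1 := hp (x, a + 1)
    have h2 := hp (x, a)
    have h3 := hp (x', a + 1)
    have h4 := hp (x', a)
    simp only [Int.abs_eq_natAbs] at h1 h2 h3 h4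
    omega
  · intro n hn h1
    have := ht g n hn h1
    rw [this, one_smul] at g1
    have := hh.inj g1
    simp only [Prod.mk.injEq] at this
    omega

/-- equivalent vertical segments at distance at most `e` have length at most the number of blocks
of size `e` by `1` -/
theorem ann (hA : Act G Γ) (ht : TFree G) (hZ : ¬ ∃ φ : Multiplicative (ℤ × ℤ) →* G, Injective φ)
    {f h : ℤ × ℤ → V} (hf : IsFlat Γ f) (hh : h ∈ Orb G f)
    (fh : IsFlat Γ h) (ch : Conv Γ h) {x x' : ℤ} {e j : ℕ} (hx : x < x') (he : x' - x ≤ e)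
    (hj : (Bl G e 1 f).ncard < j) {g : G} (hg : ∀ y : ℤ, -j ≤ y → y ≤ 0 → g • h (x, y) = h (x', y)) :
    False := by
  classical
  have hfin := Bl.finite hA hf e 1
  -- the blocks along the segment
  have hlt : (Bl G e 1 f).ncard < (Finset.Icc 1 j).card := by
    rw [Nat.card_Icc]
    omega
  rw [Set.ncard_eq_toFinset_card _ hfin] at hlt
  obtain ⟨p, hp, q, hq, hne, heq⟩ := Finset.exists_ne_map_eq_of_card_lt_of_maps_to
    (f := fun y : ℕ => cl G e 1 h (x, -(y : ℤ))) hlt (fun y _ => by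
      rw [Set.Finite.coe_toFinset]
      exact Bl.of_orb hh _)
  wlog hpq : q < p generalizing p q
  · exact this q hq p hp hne.symm heq.symm (by omega)
  rw [Finset.mem_Icc] at hp hq
  obtain ⟨c, hc⟩ := cl_eq.1 heq
  obtain ⟨w, hw⟩ := Int.eq_ofNat_of_zero_le (show 0 ≤ x' - x by omega)
  have c1 := hc 0 0 (by omega) (by omega)
  have c2 := hc 0 1 (by omega) (by omega)
  have c3 := hc w 0 (by omega) (by omega)
  simp only [Nat.cast_zero, add_zero, Nat.cast_one] at c1 c2 c3
  rw [show x + (w : ℤ) = x' by omega] at c3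
  exact hZ (z2_block hA ht fh ch hx (show -(p : ℤ) < -(q : ℤ) by omega) (hg _ (by omega) (by omega))
    (hg _ (by omega) (by omega)) (hg _ (by omega) (by omega)) c1 c2 c3)

/-- the number of hanging columns -/
theorem hang0 (hA : Act G Γ) (ht : TFree G) (hZ : ¬ ∃ φ : Multiplicative (ℤ × ℤ) →* G, Injective φ)
    {f h : ℤ × ℤ → V} (hf : IsFlat Γ f) (hh : h ∈ Orb G f)
    (fh : IsFlat Γ h) (ch : Conv Γ h) {e j : ℕ} (hj : (Bl G e 1 f).ncard < j) :
    e + 1 ≤ (Hg G h 0 j).ncard := by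
  classical
  have hfin : (Hg G h 0 j).Finite := (Bl.finite hA hf _ _).subset (Hg.sub hh _ _)
  by_contra hcon
  push Not at hcon
  have hlt : (Hg G h 0 j).ncard < (Finset.range (e + 1)).card := by rwa [Finset.card_range]
  rw [Set.ncard_eq_toFinset_card _ hfin] at hlt
  obtain ⟨p, hp, q, hq, hne, heq⟩ := Finset.exists_ne_map_eq_of_card_lt_of_maps_to
    (f := fun x : ℕ => cl G 0 j h ((x : ℤ), -(j : ℤ))) hlt (fun x _ => by
      rw [Set.Finite.coe_toFinset]
      exact ⟨x, rfl⟩)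
  wlog hpq : p < q generalizing p q
  · exact this q hq p hp hne.symm heq.symm (by omega)
  rw [Finset.mem_range] at hp hq
  obtain ⟨g, hg⟩ := cl_eq.1 heq
  refine ann hA ht hZ hf hh fh ch (x := p) (x' := q) (e := e) (j := j) (by omega) (by omega) hj (g := g)
    fun y h1 h2 => ?_
  obtain ⟨t, ht⟩ := Int.eq_ofNat_of_zero_le (show 0 ≤ j + y by omega)
  have := hg 0 t le_rfl (by omega)
  simp only [Nat.cast_zero, add_zero] at this
  rw [show y = -(j : ℤ) + t by omega]
  exact this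

theorem hang0_pos (hA : Act G Γ) {f h : ℤ × ℤ → V} (hf : IsFlat Γ f) (hh : h ∈ Orb G f) (j : ℕ) :
    1 ≤ (Hg G h 0 j).ncard := by
  have hfin : (Hg G h 0 j).Finite := (Bl.finite hA hf _ _).subset (Hg.sub hh _ _)
  rw [Nat.one_le_iff_ne_zero, Ne, Set.ncard_eq_zero hfin]
  exact (Set.range_nonempty _).ne_empty

/-- the lower bound for the number of hanging blocks -/
theorem hang (hA : Act G Γ) (ht : TFree G) {f h : ℤ × ℤ → V} (hf : IsFlat Γ f) (hh : h ∈ Orb G f)
    (hper : ¬ ∃ g : G, ∃ τ : ℤ, 0 < τ ∧ ∀ x, g • h (x, 0) = h (x + τ, 0)) (m j : ℕ) :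
    (Hg G h 0 j).ncard + m ≤ (Hg G h m j).ncard := by
  induction m with
  | zero => simp
  | succ m ih =>
    have := mh hA ht hf hh hper m j
    omega

/-- the lower bound for the number of blocks, vertical direction -/
theorem grow1 (hA : Act G Γ) (ht : TFree G) (hZ : ¬ ∃ φ : Multiplicative (ℤ × ℤ) →* G, Injective φ)
    {f : ℤ × ℤ → V} (hf : IsFlat Γ f) (hc : Conv Γ f) (e m n : ℕ) :
    (Bl G m 0 f).ncard + n * (m + 1) + e * (n - 1 - (Bl G e 1 f).ncard) ≤ (Bl G m n f).ncard := by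
  have hS := Orb.sys hA hf hc
  obtain ⟨l, ⟨h, hh, k, hk, ag, ne, hl⟩, hper⟩ := strict hA hZ hS ⟨f, Orb.self f⟩
  have hper' : ¬ ∃ g : G, ∃ τ : ℤ, 0 < τ ∧ ∀ x, g • h (x, 0) = h (x + τ, 0) := by
    rintro ⟨g, τ, hτ, hg⟩
    exact hper ⟨g, τ, hτ, fun x => by rw [hl, hl, hg]⟩
  have ne' := ne_all hA (hS.flat h hh) (hS.flat k hk) ag ne
  have fh := hS.flat h hh
  have ch := hS.conv h hh
  induction n with
  | zero => simp
  | succ n ih =>
    have h1 := up_count hA ht hf hh hk ag ne' m n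
    have h2 := hang hA ht hf hh hper' m n
    have h3 := hang0_pos hA hf hh n
    rcases Nat.lt_or_ge (Bl G e 1 f).ncard n with hlt | hge
    · have h4 := hang0 hA ht hZ hf hh fh ch hlt
      have h5 : n + 1 - 1 - (Bl G e 1 f).ncard = (n - 1 - (Bl G e 1 f).ncard) + 1 := by omega
      rw [h5]
      nlinarith
    · have h5 : n + 1 - 1 - (Bl G e 1 f).ncard = 0 := by omega
      have h6 : n - 1 - (Bl G e 1 f).ncard = 0 := by omega
      rw [h5]
      rw [h6] at ih
      nlinarith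

end Pool.Agent.H6.CF
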