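import Pool.Agent.H6.CF.Upp

/-!
# The lower bounds for the number of blocks
-/

set_option autoImplicit false

namespace Pool.Agent.H6.CF

open Function Set

variable {V : Type*} {G : Type*} [Group G] [MulAction G V] {Γ : SimpleGraph V}

theorem Conv.swap {f : ℤ × ℤ → V} (hc : Conv Γ f) : Conv Γ (fun z => f (z.2, z.1)) := by
  have : range (fun z : ℤ × ℤ => f (z.2, z.1)) = range f := by
    ext v
    constructor
    · rintro ⟨z, rfl⟩
      exact ⟨_, rfl⟩
    · rintro ⟨z, rfl⟩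
      exact ⟨(z.2, z.1), by simp⟩
  unfold Conv
  rw [this]
  exact hc

theorem grow (hA : Act G Γ) (ht : TFree G) (hZ : ¬ ∃ φ : Multiplicative (ℤ × ℤ) →* G, Injective φ)
    {f : ℤ × ℤ → V} (hf : IsFlat Γ f) (hc : Conv Γ f) (d e m n : ℕ) :
    (m + 1) * (n + 1) + d * (m - 1 - (Bl G 1 d f).ncard) + e * (n - 1 - (Bl G e 1 f).ncard) ≤
      (Bl G m n f).ncard := by
  have h1 := grow1 hA ht hZ hf hc e m n
  have h2 := grow1 hA ht hZ hf.swap hc.swap d 0 m
  rw [Bl_swap, Bl_swap, Bl_swap] at h2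
  have h3 : 1 ≤ (Bl G 0 0 f).ncard := by
    rw [Nat.one_le_iff_ne_zero, Ne, Set.ncard_eq_zero (Bl.finite hA hf 0 0)]
    exact (Set.range_nonempty _).ne_empty
  nlinarith

/-- the logarithmic gain -/
theorem gain {B : ℕ} (hB : 2 ≤ B) (N : ℕ → ℕ) (hN : ∀ d, N d ≤ B ^ (d + 1)) (m : ℕ) :
    ∃ d : ℕ, 1 / (16 * Real.log B) * (m * Real.log m) ≤ m + ((d * (m - 1 - N d) : ℕ) : ℝ) := by
  have hB' : (2 : ℝ) ≤ B := by exact_mod_cast hB
  have hlB : 0 < Real.log B := Real.log_pos (by linarith)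
  rcases Nat.eq_zero_or_pos m with rfl | hm
  · exact ⟨0, by simp⟩
  have hm' : (1 : ℝ) ≤ m := by exact_mod_cast hm
  set L := Nat.log B m with hL
  have l1 : B ^ L ≤ m := Nat.pow_log_le_self B hm.ne'
  have l2 : m < B ^ (L + 1) := Nat.lt_pow_succ_log_self (by omega) m
  have l3 : Real.log m ≤ (L + 1) * Real.log B := by
    have : Real.log m ≤ Real.log ((B : ℝ) ^ (L + 1)) := by
      apply Real.log_le_log (by linarith)
      exact_mod_cast l2.le
    rw [Real.log_pow] at this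
    push_cast at this
    exact this
  rcases Nat.lt_or_ge L 3 with h3 | h3
  · refine ⟨0, ?_⟩
    have h4 : (L : ℝ) ≤ 2 := by exact_mod_cast (by omega : L ≤ 2)
    have h5 : Real.log m ≤ 3 * Real.log B := by nlinarith
    have h6 : 1 / (16 * Real.log B) * (m * Real.log m) ≤ 1 / (16 * Real.log B) * (m * (3 * Real.log B)) := by
      gcongr
    have h7 : 1 / (16 * Real.log B) * (m * (3 * Real.log B)) = 3 / 16 * m := by
      field_simp
    push_cast
    nlinarith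
  · refine ⟨L - 2, ?_⟩
    obtain ⟨K, hK⟩ := Nat.exists_eq_add_of_le h3
    have h4 : B ^ (L - 2 + 1) * 2 ≤ m := by
      calc B ^ (L - 2 + 1) * 2 ≤ B ^ (L - 2 + 1) * B := Nat.mul_le_mul_left _ hB
        _ = B ^ L := by rw [← pow_succ]; congr 1; omega
        _ ≤ m := l1
    have h5 := hN (L - 2)
    have h8 : 8 ≤ m := by
      calc 8 = 2 ^ 3 := by norm_num
        _ ≤ B ^ 3 := Nat.pow_le_pow_left hB 3
        _ ≤ B ^ L := Nat.pow_le_pow_right (by omega) h3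
        _ ≤ m := l1
    have h6 : m ≤ 4 * (m - 1 - N (L - 2)) := by omega
    have h7 : L + 1 ≤ 4 * (L - 2) := by omega
    have h6' : (m : ℝ) ≤ 4 * ((m - 1 - N (L - 2) : ℕ) : ℝ) := by exact_mod_cast h6
    have h7' : (L : ℝ) + 1 ≤ 4 * ((L - 2 : ℕ) : ℝ) := by exact_mod_cast h7
    rw [Nat.cast_mul]
    have e1 : 1 / (16 * Real.log B) * (m * Real.log m) ≤ 1 / (16 * Real.log B) * (m * ((L + 1) * Real.log B)) := by
      gcongr
    have e2 : 1 / (16 * Real.log B) * (m * ((L + 1) * Real.log B)) = m * (L + 1) / 16 := by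
      field_simp
    have e3 : (m : ℝ) * (L + 1) ≤ (4 * ((m - 1 - N (L - 2) : ℕ) : ℝ)) * (4 * ((L - 2 : ℕ) : ℝ)) := by
      gcongr
    nlinarith

/-- the bound with logarithms -/
theorem grow_log (hA : Act G Γ) (ht : TFree G) (hZ : ¬ ∃ φ : Multiplicative (ℤ × ℤ) →* G, Injective φ) :
    ∃ c : ℝ, 0 < c ∧ ∀ f : ℤ × ℤ → V, IsFlat Γ f → Conv Γ f → ∀ m n : ℕ,
      m * n + c * (m * Real.log m + n * Real.log n) ≤ ((Bl G m n f).ncard : ℝ) := by
  obtain ⟨B, hB, hup⟩ := upp (G := G) hA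
  have hB' : (2 : ℝ) ≤ B := by exact_mod_cast hB
  have hlB : 0 < Real.log B := Real.log_pos (by linarith)
  refine ⟨1 / (16 * Real.log B), by positivity, fun f hf hc m n => ?_⟩
  obtain ⟨d, hd⟩ := gain hB (fun d => (Bl G 1 d f).ncard) (fun d => (hup f hf d).1) m
  obtain ⟨e, he⟩ := gain hB (fun d => (Bl G d 1 f).ncard) (fun d => (hup f hf d).2.1) n
  have h1 := grow hA ht hZ hf hc d e m n
  have h2 : (((m + 1) * (n + 1) + d * (m - 1 - (Bl G 1 d f).ncard) +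
    e * (n - 1 - (Bl G e 1 f).ncard) : ℕ) : ℝ) ≤ ((Bl G m n f).ncard : ℝ) := by exact_mod_cast h1
  rw [Nat.cast_add, Nat.cast_add, Nat.cast_mul (m + 1)] at h2
  push_cast at h2 hd he
  nlinarith

/-- the exponents of the numbers of horizontal and of vertical words -/
theorem grow_exp (hA : Act G Γ) (ht : TFree G) (hZ : ¬ ∃ φ : Multiplicative (ℤ × ℤ) →* G, Injective φ)
    {f : ℤ × ℤ → V} (hf : IsFlat Γ f) (hc : Conv Γ f) {C s t : ℝ} (ht0 : 0 < t)
    (h1 : ∀ n : ℕ, ((Bl G n 0 f).ncard : ℝ) ≤ C * (n + 1) ^ s)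
    (h2 : ∀ n : ℕ, ((Bl G 0 n f).ncard : ℝ) ≤ C * (n + 1) ^ t) : 1 + 1 / t ≤ s := by
  obtain ⟨B, hB, hup⟩ := upp (G := G) hA
  by_contra hcon
  push Not at hcon
  -- we may assume that `s ≥ 1`
  have hC : 0 < C := by
    have := h1 0
    have h3 : 1 ≤ (Bl G 0 0 f).ncard := by
      rw [Nat.one_le_iff_ne_zero, Ne, Set.ncard_eq_zero (Bl.finite hA hf 0 0)]
      exact (Set.range_nonempty _).ne_empty
    have h3' : (1 : ℝ) ≤ (Bl G 0 0 f).ncard := by exact_mod_cast h3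
    simp only [Nat.cast_zero, zero_add, Real.one_rpow, mul_one] at this
    linarith
  wlog hs : 1 ≤ s generalizing s
  · refine this (s := 1) (fun n => (h1 n).trans ?_) ?_ le_rfl
    · have hn : (1 : ℝ) ≤ (n : ℝ) + 1 := by
        have : (0 : ℝ) ≤ n := Nat.cast_nonneg n
        linarith
      gcongr
      exact (not_le.1 hs).le
    · have : 0 < 1 / t := by positivity
      linarith
  have hBpos : (0 : ℝ) < B := by
    have : (2 : ℝ) ≤ B := by exact_mod_cast hB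
    linarith
  have hγ : t * (s - 1) < 1 := by
    have h3 : s - 1 < 1 / t := by linarith
    calc t * (s - 1) < t * (1 / t) := by gcongr
      _ = 1 := by field_simp
  have key : ∀ d : ℕ, 1 ≤ d → ((d : ℝ) + 1) ^ (1 - t * (s - 1)) ≤ 2 * (C * 3 ^ s * (B * C + 2) ^ (s - 1)) := by
    intro d hd
    have hd1 : (0 : ℝ) < (d : ℝ) + 1 := by positivity
    set M : ℕ := ⌈(B * C) * ((d : ℝ) + 1) ^ t⌉₊ with hM
    have m1 : (B * C) * ((d : ℝ) + 1) ^ t ≤ M := Nat.le_ceil _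
    have m2 : (M : ℝ) < (B * C) * ((d : ℝ) + 1) ^ t + 1 := Nat.ceil_lt_add_one (by positivity)
    have m3 : (Bl G 1 d f).ncard ≤ M := by
      have h4 : ((Bl G 1 d f).ncard : ℝ) ≤ B * (Bl G 0 d f).ncard := by exact_mod_cast (hup f hf d).2.2
      have h5 : (B : ℝ) * (Bl G 0 d f).ncard ≤ B * (C * ((d : ℝ) + 1) ^ t) := by
        gcongr
        exact h2 d
      have : ((Bl G 1 d f).ncard : ℝ) ≤ M := by linarith
      exact_mod_cast this
    have g1 := grow hA ht hZ hf hc d 0 (2 * M + 2) 0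
    have g2 : d * (M + 1) ≤ (Bl G (2 * M + 2) 0 f).ncard := by
      have : M + 1 ≤ 2 * M + 2 - 1 - (Bl G 1 d f).ncard := by omega
      have := Nat.mul_le_mul_left d this
      omega
    have g3 : ((d : ℝ) * (M + 1)) ≤ C * ((2 * M + 2 : ℕ) + 1) ^ s := by
      refine le_trans ?_ (h1 (2 * M + 2))
      exact_mod_cast g2
    have hM0 : (0 : ℝ) < (M : ℝ) + 1 := by positivity
    have g4 : (((2 * M + 2 : ℕ) : ℝ) + 1) ^ s ≤ 3 ^ s * ((M : ℝ) + 1) ^ s := by
      rw [← Real.mul_rpow (by norm_num) hM0.le]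
      gcongr
      push_cast
      have : (0 : ℝ) ≤ M := Nat.cast_nonneg M
      linarith
    have g5 : ((M : ℝ) + 1) ^ s = ((M : ℝ) + 1) ^ (s - 1) * (M + 1) := by
      rw [← Real.rpow_add_one hM0.ne']
      congr 1
      ring
    have g6 : (d : ℝ) ≤ C * 3 ^ s * ((M : ℝ) + 1) ^ (s - 1) := by
      have h6 : (d : ℝ) * (M + 1) ≤ (C * 3 ^ s * ((M : ℝ) + 1) ^ (s - 1)) * (M + 1) := by
        calc (d : ℝ) * (M + 1) ≤ C * (((2 * M + 2 : ℕ) : ℝ) + 1) ^ s := g3
          _ ≤ C * (3 ^ s * ((M : ℝ) + 1) ^ s) := by gcongr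
          _ = _ := by rw [g5]; ring
      exact le_of_mul_le_mul_right h6 hM0
    have g7 : ((M : ℝ) + 1) ≤ (B * C + 2) * ((d : ℝ) + 1) ^ t := by
      have h7 : (1 : ℝ) ≤ ((d : ℝ) + 1) ^ t := Real.one_le_rpow (by
        have : (0 : ℝ) ≤ d := Nat.cast_nonneg d
        linarith) ht0.le
      nlinarith
    have g8 : ((M : ℝ) + 1) ^ (s - 1) ≤ (B * C + 2) ^ (s - 1) * ((d : ℝ) + 1) ^ (t * (s - 1)) := by
      rw [Real.rpow_mul hd1.le, ← Real.mul_rpow (by positivity) (by positivity)]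
      gcongr
    have g9 : (d : ℝ) + 1 ≤ 2 * (C * 3 ^ s * (B * C + 2) ^ (s - 1)) * ((d : ℝ) + 1) ^ (t * (s - 1)) := by
      have h8 : (1 : ℝ) ≤ d := by exact_mod_cast hd
      have h9 : (d : ℝ) ≤ C * 3 ^ s * ((B * C + 2) ^ (s - 1) * ((d : ℝ) + 1) ^ (t * (s - 1))) := by
        refine g6.trans ?_
        gcongr
      nlinarith
    have g10 : (d : ℝ) + 1 = ((d : ℝ) + 1) ^ (1 - t * (s - 1)) * ((d : ℝ) + 1) ^ (t * (s - 1)) := by
      rw [← Real.rpow_add hd1]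
      simp
    have h11 : 0 < ((d : ℝ) + 1) ^ (t * (s - 1)) := by positivity
    have h12 : ((d : ℝ) + 1) ^ (1 - t * (s - 1)) * ((d : ℝ) + 1) ^ (t * (s - 1)) ≤
        2 * (C * 3 ^ s * (B * C + 2) ^ (s - 1)) * ((d : ℝ) + 1) ^ (t * (s - 1)) :=
      calc _ = (d : ℝ) + 1 := g10.symm
        _ ≤ _ := g9
    exact le_of_mul_le_mul_right h12 h11
  -- contradiction
  have hlim : Filter.Tendsto (fun d : ℕ => ((d : ℝ) + 1) ^ (1 - t * (s - 1))) Filter.atTop Filter.atTop := by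
    refine (tendsto_rpow_atTop (by linarith)).comp ?_
    exact Filter.tendsto_atTop_add_const_right _ _ tendsto_natCast_atTop_atTop
  obtain ⟨d, hd1, hd2⟩ := ((Filter.eventually_ge_atTop 1).and
    (hlim.eventually_gt_atTop (2 * (C * 3 ^ s * (B * C + 2) ^ (s - 1))))).exists
  have := key d hd1
  linarith

end Pool.Agent.H6.CF
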