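import Pool.Agent.H6.CF.Final

/-!
# The number of blocks of a flat
-/

set_option autoImplicit false

namespace Pool.Agent.H6.CF

open Function Set

section card

/-- a map with some fibres of size at least two -/
theorem card_ext {α β : Type*} (π : α → β) {s : Set α} {t A : Set β} (hs : s.Finite)
    (hst : ∀ b ∈ t, ∃ a ∈ s, π a = b)
    (hA : ∀ b ∈ A, b ∈ t ∧ ∃ a ∈ s, ∃ a' ∈ s, π a = b ∧ π a' = b ∧ a ≠ a') :
    t.ncard + A.ncard ≤ s.ncard := by
  classical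
  rcases s.eq_empty_or_nonempty with rfl | ⟨a₀, -⟩
  · have ht : t = ∅ := by
      rw [Set.eq_empty_iff_forall_notMem]
      intro b hb
      obtain ⟨a, ha, -⟩ := hst b hb
      exact ha
    have hA' : A = ∅ := by
      rw [Set.eq_empty_iff_forall_notMem]
      intro b hb
      obtain ⟨-, a, ha, -⟩ := hA b hb
      exact ha
    simp [ht, hA']
  haveI : Nonempty α := ⟨a₀⟩
  choose! σ hσ1 hσ2 using hst
  have hex : ∀ b ∈ A, ∃ a ∈ s, π a = b ∧ a ≠ σ b := by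
    intro b hb
    obtain ⟨-, a, ha, a', ha', h1, h2, h3⟩ := hA b hb
    by_cases h : a = σ b
    · exact ⟨a', ha', h2, fun h' => h3 (h.trans h'.symm)⟩
    · exact ⟨a, ha, h1, h⟩
  choose! ρ hρ1 hρ2 hρ3 using hex
  have i1 : Set.InjOn σ t := fun b hb b' hb' h => by rw [← hσ2 b hb, ← hσ2 b' hb', h]
  have i2 : Set.InjOn ρ A := fun b hb b' hb' h => by rw [← hρ2 b hb, ← hρ2 b' hb', h]
  have hd : Disjoint (σ '' t) (ρ '' A) := by
    rw [Set.disjoint_left]
    rintro _ ⟨b, hb, rfl⟩ ⟨b', hb', h⟩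
    have : b' = b := by rw [← hρ2 b' hb', h, hσ2 b hb]
    subst this
    exact hρ3 b' hb' h
  have f1 : (σ '' t).Finite := hs.subset (by rintro _ ⟨b, hb, rfl⟩; exact hσ1 b hb)
  have f2 : (ρ '' A).Finite := hs.subset (by rintro _ ⟨b, hb, rfl⟩; exact hρ1 b hb)
  rw [← i1.ncard_image, ← i2.ncard_image, ← Set.ncard_union_eq hd f1 f2]
  refine Set.ncard_le_ncard ?_ hs
  rintro _ (⟨b, hb, rfl⟩ | ⟨b, hb, rfl⟩)
  · exact hσ1 b hb
  · exact hρ1 b hb

end card

variable {V : Type*} {G : Type*} [Group G] [MulAction G V] {Γ : SimpleGraph V}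

/-- the blocks at the origin of `u` and `v` are equivalent -/
def SB (G : Type*) {V : Type*} [Group G] [MulAction G V] (m n : ℕ) (u v : ℤ × ℤ → V) : Prop :=
  ∃ g : G, ∀ i j : ℕ, i ≤ m → j ≤ n → g • u ((i : ℤ), (j : ℤ)) = v (i, j)

/-- equivalence of blocks -/
def SBs (G : Type*) (V : Type*) [Group G] [MulAction G V] (m n : ℕ) : Setoid (ℤ × ℤ → V) where
  r := SB G m n
  iseqv := by
    refine ⟨fun u => ⟨1, fun i j _ _ => one_smul _ _⟩, ?_, ?_⟩
    · rintro u v ⟨g, hg⟩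
      exact ⟨g⁻¹, fun i j hi hj => by rw [inv_smul_eq_iff, hg i j hi hj]⟩
    · rintro u v w ⟨g, hg⟩ ⟨g', hg'⟩
      exact ⟨g' * g, fun i j hi hj => by rw [mul_smul, hg i j hi hj, hg' i j hi hj]⟩

/-- the class of the block of `u` at `b` -/
def cl (G : Type*) {V : Type*} [Group G] [MulAction G V] (m n : ℕ) (u : ℤ × ℤ → V) (b : ℤ × ℤ) :
    Quotient (SBs G V m n) := Quotient.mk (SBs G V m n) (fun z => u (b.1 + z.1, b.2 + z.2))

theorem cl_eq {m n : ℕ} {u v : ℤ × ℤ → V} {b c : ℤ × ℤ} : cl G m n u b = cl G m n v c ↔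
    ∃ g : G, ∀ i j : ℕ, i ≤ m → j ≤ n → g • u (b.1 + i, b.2 + j) = v (c.1 + i, c.2 + j) := by
  unfold cl
  rw [Quotient.eq]
  exact Iff.rfl

/-- the classes of the blocks of `f` -/
def Bl (G : Type*) {V : Type*} [Group G] [MulAction G V] (m n : ℕ) (f : ℤ × ℤ → V) :
    Set (Quotient (SBs G V m n)) := Set.range (cl G m n f)

theorem Bl.of_orb {m n : ℕ} {f h : ℤ × ℤ → V} (hh : h ∈ Orb G f) (b : ℤ × ℤ) :
    cl G m n h b ∈ Bl G m n f := by
  obtain ⟨g, c, hg⟩ := hh (b.1.natAbs + b.2.natAbs + m + n)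
  refine ⟨b + c, ?_⟩
  rw [cl_eq]
  refine ⟨g, fun i j hi hj => ?_⟩
  rw [hg (b.1 + i, b.2 + j) (by simp only []; omega) (by simp only []; omega)]
  congr 2
  ext
  · simp only [Prod.fst_add]; ring
  · simp only [Prod.snd_add]; ring

theorem Bl.finite (hA : Act G Γ) {f : ℤ × ℤ → V} (hf : IsFlat Γ f) (m n : ℕ) :
    (Bl G m n f).Finite := by
  classical
  obtain ⟨K, hK, hGK⟩ := hA.orb
  choose u hu using fun b : ℤ × ℤ => hGK (f b)
  have hfin : {w : Fin (m + 1) × Fin (n + 1) → V | ∀ i, w i ∈ {w | ∃ v ∈ K, Γ.dist v w ≤ m + n}}.Finite :=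
    Set.Finite.pi' fun _ => hA.ballK hK _
  let F : ℤ × ℤ → Fin (m + 1) × Fin (n + 1) → V := fun b i =>
    u b • f (b.1 + ((i.1 : ℕ) : ℤ), b.2 + ((i.2 : ℕ) : ℤ))
  have hF : ∀ b, F b ∈ {w : Fin (m + 1) × Fin (n + 1) → V | ∀ i, w i ∈ {w | ∃ v ∈ K, Γ.dist v w ≤ m + n}} := by
    intro b i
    refine ⟨_, hu b, ?_⟩
    simp only [F]
    rw [hA.dist]
    have := hf b (b.1 + ((i.1 : ℕ) : ℤ), b.2 + ((i.2 : ℕ) : ℤ))
    have h1 := i.1.2
    have h2 := i.2.2
    simp only [Int.abs_eq_natAbs] at this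
    omega
  have hr : (Set.range F).Finite := hfin.subset (by rintro _ ⟨b, rfl⟩; exact hF b)
  -- the class is determined by `F`
  have hdet : ∀ b c, F b = F c → cl G m n f b = cl G m n f c := by
    intro b c hbc
    rw [cl_eq]
    refine ⟨(u c)⁻¹ * u b, fun i j hi hj => ?_⟩
    have := congrFun hbc (⟨i, by omega⟩, ⟨j, by omega⟩)
    simp only [F] at this
    rw [mul_smul, inv_smul_eq_iff, this]
  have : ∀ w ∈ Set.range F, ∃ b, F b = w := fun w hw => hw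
  choose! σ hσ using this
  refine (hr.image fun w => cl G m n f (σ w)).subset ?_
  rintro _ ⟨b, rfl⟩
  exact ⟨F b, ⟨b, rfl⟩, hdet _ _ (hσ (F b) ⟨b, rfl⟩)⟩

/-- forgetting the top row of a block -/
def down (G : Type*) {V : Type*} [Group G] [MulAction G V] (m n : ℕ) :
    Quotient (SBs G V m (n + 1)) → Quotient (SBs G V m n) :=
  Quotient.map' id fun u v h => by
    obtain ⟨g, hg⟩ := h
    exact ⟨g, fun i j hi hj => hg i j hi (by omega)⟩

theorem down_cl {m n : ℕ} (u : ℤ × ℤ → V) (b : ℤ × ℤ) :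
    down G m n (cl G m (n + 1) u b) = cl G m n u b := rfl

end Pool.Agent.H6.CF
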