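import Pool.Agent.H6.CF.Flat

/-!
# Flats in graphs without 3-cubes are convex
-/

set_option autoImplicit false

namespace Pool.Agent.H6.CF

open Function Set

variable {V : Type*} {Γ : SimpleGraph V}

/-- maps of the grid which are locally flat -/
structure LF (Γ : SimpleGraph V) (r : ℤ × ℤ → V) : Prop where
  hor : ∀ x y, Γ.Adj (r (x, y)) (r (x + 1, y))
  ver : ∀ x y, Γ.Adj (r (x, y)) (r (x, y + 1))
  h2 : ∀ x y, r (x, y) ≠ r (x + 2, y)
  v2 : ∀ x y, r (x, y) ≠ r (x, y + 2)
  dg : ∀ x y, r (x, y) ≠ r (x + 1, y + 1)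
  ad : ∀ x y, r (x, y + 1) ≠ r (x + 1, y)

theorem LF.swap {r : ℤ × ℤ → V} (h : LF Γ r) : LF Γ (fun z => r (z.2, z.1)) where
  hor := fun x y => h.ver y x
  ver := fun x y => h.hor y x
  h2 := fun x y => h.v2 y x
  v2 := fun x y => h.h2 y x
  dg := fun x y => h.dg y x
  ad := fun x y => (h.ad y x).symm

theorem LF.neg1 {r : ℤ × ℤ → V} (h : LF Γ r) : LF Γ (fun z => r (-z.1, z.2)) where
  hor := fun x y => by
    have := (h.hor (-x - 1) y).symm
    simpa [show -(x + 1) = -x - 1 by ring] using this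
  ver := fun x y => h.ver (-x) y
  h2 := fun x y => by
    have := (h.h2 (-x - 2) y).symm
    simpa [show -(x + 2) = -x - 2 by ring] using this
  v2 := fun x y => h.v2 (-x) y
  dg := fun x y => by
    have := (h.ad (-x - 1) y).symm
    simpa [show -(x + 1) = -x - 1 by ring] using this
  ad := fun x y => by
    have := (h.dg (-x - 1) y).symm
    simpa [show -(x + 1) = -x - 1 by ring] using this

theorem LF.no_max (hΓ : IsMedian Γ) (h3 : NoThreeCube Γ) {r : ℤ × ℤ → V} (hr : LF Γ r) (v : V)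
    (x y : ℤ) (h1 : Γ.dist v (r (x, y)) = Γ.dist v (r (x - 1, y)) + 1)
    (h2 : Γ.dist v (r (x, y)) = Γ.dist v (r (x + 1, y)) + 1) : False := by
  have a1 : Γ.Adj (r (x, y)) (r (x - 1, y)) := by
    have := (hr.hor (x - 1) y).symm
    simpa using this
  have a2 : Γ.Adj (r (x, y)) (r (x + 1, y)) := hr.hor x y
  have a3 : Γ.Adj (r (x, y)) (r (x, y + 1)) := hr.ver x y
  have n1 : r (x - 1, y) ≠ r (x + 1, y) := by
    have := hr.h2 (x - 1) y
    rwa [show x - 1 + 2 = x + 1 by ring] at this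
  have n2 : r (x - 1, y) ≠ r (x, y + 1) := by
    have := hr.dg (x - 1) y
    rwa [show x - 1 + 1 = x by ring] at this
  have n3 : r (x + 1, y) ≠ r (x, y + 1) := (hr.ad x y).symm
  obtain ⟨s, s1, s2, s3⟩ := hΓ.quad a1 a2 n1 h1 h2
  refine no_three hΓ h3 a1 a2 a3 n1 n2 n3 s1 s2 ?_ (spr := r (x - 1, y + 1))
    (sqr := r (x + 1, y + 1)) ?_ ?_ ?_ ?_ ?_ ?_
  · rintro rfl
    omega
  · exact hr.ver _ _
  · have := (hr.hor (x - 1) (y + 1)).symm
    rwa [show x - 1 + 1 = x by ring] at this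
  · intro h
    have := hr.ad (x - 1) y
    rw [show x - 1 + 1 = x by ring] at this
    exact this h
  · exact hr.ver _ _
  · exact hr.hor _ _
  · exact fun h => hr.dg x y h.symm

/-- rows are geodesics, and distances grow away from the row of the vertex -/
theorem LF.right (hΓ : IsMedian Γ) (h3 : NoThreeCube Γ) {r : ℤ × ℤ → V} (hr : LF Γ r) (v : V)
    (x y : ℤ) (h : Γ.dist v (r (x, y)) < Γ.dist v (r (x + 1, y))) (n : ℕ) :
    Γ.dist v (r (x + n + 1, y)) = Γ.dist v (r (x + n, y)) + 1 := by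
  induction n with
  | zero =>
    have := hΓ.ne_dist (hr.hor x y) v
    simp only [Nat.cast_zero, add_zero]
    omega
  | succ n ih =>
    have e : x + ((n + 1 : ℕ) : ℤ) = x + n + 1 := by push_cast; ring
    rw [e]
    rcases hΓ.ne_dist (hr.hor (x + n + 1) y) v with h4 | h4
    · exfalso
      refine hr.no_max hΓ h3 v (x + n + 1) y ?_ h4
      rw [show x + (n : ℤ) + 1 - 1 = x + n by ring]
      exact ih
    · exact h4

/-- opposite edges of a square, in both vertical directions -/
theorem LF.par (hΓ : IsMedian Γ) {r : ℤ × ℤ → V} (hr : LF Γ r) (v : V) (x y : ℤ)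
    (h : Γ.dist v (r (x, y)) < Γ.dist v (r (x + 1, y))) (y' : ℤ) :
    Γ.dist v (r (x, y')) < Γ.dist v (r (x + 1, y')) := by
  have up : ∀ y, Γ.dist v (r (x, y)) < Γ.dist v (r (x + 1, y)) →
      Γ.dist v (r (x, y + 1)) < Γ.dist v (r (x + 1, y + 1)) := fun y h =>
    parallel hΓ (hr.hor x y).symm (hr.hor x (y + 1)).symm (hr.ver (x + 1) y) (hr.ver x y)
      (hr.ad x y).symm (hr.dg x y) h
  have down : ∀ y, Γ.dist v (r (x, y + 1)) < Γ.dist v (r (x + 1, y + 1)) →
      Γ.dist v (r (x, y)) < Γ.dist v (r (x + 1, y)) := fun y h =>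
    parallel hΓ (hr.hor x (y + 1)).symm (hr.hor x y).symm (hr.ver (x + 1) y).symm
      (hr.ver x y).symm (hr.dg x y).symm (hr.ad x y) h
  rcases le_total y y' with hl | hl
  · induction y', hl using Int.leInduction with
    | base => exact h
    | succ n _ ih => exact up n ih
  · induction y', hl using Int.leInductionDown with
    | base => exact h
    | pred n _ ih =>
      apply down (n - 1)
      rw [show n - 1 + 1 = n by ring]
      exact ih

theorem IsFlat.lf {f : ℤ × ℤ → V} (hf : IsFlat Γ f) : LF Γ f where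
  hor := fun x y => hf.adj (by simp)
  ver := fun x y => hf.adj (by simp)
  h2 := fun x y h => by simpa using hf.inj h
  v2 := fun x y h => by simpa using hf.inj h
  dg := fun x y h => by simpa using hf.inj h
  ad := fun x y h => by simpa using hf.inj h

theorem right_n (hΓ : IsMedian Γ) (h3 : NoThreeCube Γ) {f : ℤ × ℤ → V} (hr : LF Γ f)
    (v : V) (x y : ℤ) (h : Γ.dist v (f (x, y)) < Γ.dist v (f (x + 1, y))) (n : ℕ) :
    Γ.dist v (f (x + n, y)) = Γ.dist v (f (x, y)) + n := by
  induction n with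
  | zero => simp
  | succ n ih =>
    have := hr.right hΓ h3 v x y h n
    rw [show x + ((n + 1 : ℕ) : ℤ) = x + n + 1 by push_cast; ring, this, ih]
    ring

theorem left_n (hΓ : IsMedian Γ) (h3 : NoThreeCube Γ) {f : ℤ × ℤ → V} (hr : LF Γ f)
    (v : V) (x y : ℤ) (h : Γ.dist v (f (x, y)) < Γ.dist v (f (x - 1, y))) (n : ℕ) :
    Γ.dist v (f (x - n, y)) = Γ.dist v (f (x, y)) + n := by
  have := right_n hΓ h3 hr.neg1 v (-x) y (by
    simp only []
    rw [show -(-x + 1) = x - 1 by ring, neg_neg]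
    exact h) n
  simp only [] at this
  rwa [show -(-x + (n : ℤ)) = x - n by ring, neg_neg] at this

/-- flats in graphs without 3-cubes are convex -/
theorem conv_of_two (hΓ : IsMedian Γ) (h3 : NoThreeCube Γ) {f : ℤ × ℤ → V} (hf : IsFlat Γ f) :
    Conv Γ f := by
  classical
  have key : ∀ v : V, ∃ (c : ℕ) (p : ℤ × ℤ), f p = v ∨ 0 < c ∧
      ∀ z : ℤ × ℤ, Γ.dist v (f z) = c + (z.1 - p.1).natAbs + (z.2 - p.2).natAbs := by
    intro v
    -- a vertex of the flat at the least distance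
    have hex : ∃ c : ℕ, ∃ p : ℤ × ℤ, Γ.dist v (f p) = c := ⟨_, (0, 0), rfl⟩
    obtain ⟨p, hp⟩ := Nat.find_spec hex
    have hmin : ∀ q, Nat.find hex ≤ Γ.dist v (f q) := fun q => Nat.find_min' hex ⟨q, rfl⟩
    set c := Nat.find hex
    refine ⟨c, p, ?_⟩
    rcases Nat.eq_zero_or_pos c with h0 | h0
    · left
      exact ((hΓ.eq_iff v (f p)).1 (by omega)).symm
    right
    refine ⟨h0, ?_⟩
    obtain ⟨x0, y0⟩ := p
    have lt : ∀ q : ℤ × ℤ, Γ.Adj (f (x0, y0)) (f q) → Γ.dist v (f (x0, y0)) < Γ.dist v (f q) := by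
      intro q hq
      have h1 := hΓ.ne_dist hq v
      have h2 := hmin q
      omega
    have hlf := hf.lf
    have e1 := lt (x0 + 1, y0) (hf.adj (by simp))
    have e2 := lt (x0 - 1, y0) (hf.adj (by simp))
    have e3 := lt (x0, y0 + 1) (hf.adj (by simp))
    have e4 := lt (x0, y0 - 1) (hf.adj (by simp))
    have c3 := right_n hΓ h3 hlf.swap v y0 x0 e3
    have c4 := left_n hΓ h3 hlf.swap v y0 x0 e4
    simp only [] at c3 c4
    have hcol : ∀ y, Γ.dist v (f (x0, y)) = c + (y - y0).natAbs := by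
      intro y
      rcases le_total y0 y with h | h
      · have := c3 (y - y0).toNat
        rw [show y0 + ((y - y0).toNat : ℤ) = y by omega] at this
        omega
      · have := c4 (y0 - y).toNat
        rw [show y0 - ((y0 - y).toNat : ℤ) = y by omega] at this
        omega
    rintro ⟨x, y⟩
    simp only []
    rcases le_total x0 x with h | h
    · have h1 := hlf.par hΓ v x0 y0 e1 y
      have := right_n hΓ h3 hlf v x0 y h1 (x - x0).toNat
      rw [show x0 + ((x - x0).toNat : ℤ) = x by omega, hcol] at this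
      omega
    · have h1 := hlf.neg1.par hΓ v (-x0) y0 (by
        simp only []
        rw [show -(-x0 + 1) = x0 - 1 by ring, neg_neg]
        exact e2) y
      simp only [] at h1
      rw [show -(-x0 + 1) = x0 - 1 by ring, neg_neg] at h1
      have := left_n hΓ h3 hlf v x0 y h1 (x0 - x).toNat
      rw [show x0 - ((x0 - x).toNat : ℤ) = x by omega, hcol] at this
      omega
  rintro _ ⟨z, rfl⟩ _ ⟨w, rfl⟩ m hm
  obtain ⟨c, p, h | ⟨h0, h⟩⟩ := key m
  · exact ⟨p, h⟩
  · exfalso
    have h1 := h z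
    have h2 := h w
    have h3 := hf z w
    rw [dcomm (f z) m] at hm
    simp only [Int.abs_eq_natAbs] at h3
    omega

end Pool.Agent.H6.CF
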