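import Pool.Agent.H6.CF.Strict
import Pool.Agent.H6.CF.Two

/-!
# Final statements
-/

set_option autoImplicit false

namespace Pool.Agent.H6.CF

open Function Set

variable {V : Type*} {G : Type*} [Group G] [MulAction G V] {Γ : SimpleGraph V}

/-- one side of the intersection of two flats -/
theorem above {h k : ℤ × ℤ → V} (hh : IsFlat Γ h) (hk : IsFlat Γ k) (ck : Conv Γ k) {a b : ℤ}
    (hab : a < b) (h0 : ∀ x y, a ≤ y → y ≤ b → h (x, y) = k (x, y))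
    (h1 : ∀ x, h (x, b + 1) ≠ k (x, b + 1)) (z w : ℤ × ℤ) (e : h z = k w) : z.2 ≤ b := by
  by_contra hz
  push Not at hz
  have e3 : h (z.1, b) = k (z.1, b) := h0 z.1 b hab.le le_rfl
  obtain ⟨u, hu, -⟩ := ck.between hk (z := (z.1, b)) (w := w) (m := h (z.1, b + 1)) (by
    rw [← e3, ← e]
    have a1 := hh (z.1, b) (z.1, b + 1)
    have a2 := hh (z.1, b + 1) z
    have a3 := hh (z.1, b) z
    simp only [Int.abs_eq_natAbs] at a1 a2 a3
    omega)
  have d1 : Γ.dist (k (z.1, b)) (k u) = 1 := by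
    rw [hu, ← e3]
    exact hh.dist_eq (by simp)
  have d2 := hk (z.1, b) u
  rw [d1] at d2
  simp only [Int.abs_eq_natAbs] at d2
  rcases (show (u.1 = z.1 ∧ u.2 = b + 1) ∨ (a ≤ u.2 ∧ u.2 ≤ b) by omega) with ⟨h4, h5⟩ | ⟨h4, h5⟩
  · apply h1 z.1
    rw [← hu, ← h4, ← h5]
  · have e4 : h u = k u := h0 u.1 u.2 h4 h5
    rw [← e4] at hu
    have := hh.inj hu
    rw [this] at h5
    simp at h5

theorem Conv.neg2 {f : ℤ × ℤ → V} (hc : Conv Γ f) : Conv Γ (fun z => f (z.1, -z.2)) := by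
  have : range (fun z : ℤ × ℤ => f (z.1, -z.2)) = range f := by
    ext v
    constructor
    · rintro ⟨z, rfl⟩
      exact ⟨_, rfl⟩
    · rintro ⟨z, rfl⟩
      exact ⟨(z.1, -z.2), by simp⟩
  unfold Conv
  rw [this]
  exact hc

/-- convex flats which agree on a strip and differ next to it meet exactly in the strip -/
theorem meet_strip {h k : ℤ × ℤ → V} (hh : IsFlat Γ h) (hk : IsFlat Γ k) (ck : Conv Γ k) {a b : ℤ}
    (hab : a < b) (h0 : ∀ x y, a ≤ y → y ≤ b → h (x, y) = k (x, y))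
    (h1 : ∀ x, h (x, b + 1) ≠ k (x, b + 1)) (h2 : ∀ x, h (x, a - 1) ≠ k (x, a - 1)) (z w : ℤ × ℤ) :
    h z = k w ↔ z = w ∧ a ≤ z.2 ∧ z.2 ≤ b := by
  constructor
  · intro e
    have e1 := above hh hk ck hab h0 h1 z w e
    have e2 := above (h := fun z => h (z.1, -z.2)) (k := fun z => k (z.1, -z.2)) hh.neg2 hk.neg2
      ck.neg2 (a := -b) (b := -a) (by omega)
      (fun x y h3 h4 => h0 x (-y) (by omega) (by omega)) (fun x => by
        simp only []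
        rw [show -(-a + 1) = a - 1 by ring]
        exact h2 x) (z.1, -z.2) (w.1, -w.2) (by simpa using e)
    simp only [] at e2
    have e3 : h z = k z := h0 z.1 z.2 (by omega) e1
    rw [e3] at e
    exact ⟨hk.inj e, by omega, e1⟩
  · rintro ⟨e, h3, h4⟩
    rw [← e]
    exact h0 z.1 z.2 h3 h4

theorem Conv.translate {f : ℤ × ℤ → V} (hA : Act G Γ) (hf : Conv Γ f) (g : G) (b : ℤ × ℤ) :
    Conv Γ (fun z => g • f (z + b)) := hf.smul hA g b

/-- a flat with a periodic row -/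
theorem periodic_rows (hA : Act G Γ) {f : ℤ × ℤ → V} (hf : IsFlat Γ f) {g : G} {τ : ℤ}
    (hτ : 0 < τ) (hg : ∀ x, g • f (x, 0) = f (x + τ, 0)) (y : ℤ) :
    ∃ τ : ℤ, 0 < τ ∧ ∃ g : G, ∀ x, g • f (x, y) = f (x + τ, y) := by
  obtain ⟨J, hJ, h1⟩ := both hA hf hg y.natAbs
  exact ⟨J * τ, by positivity, g ^ J, h1 y le_rfl⟩

/-- a flat with a periodic row meets some translates exactly in wide strips -/
theorem wide_strips (hA : Act G Γ) (hZ : ¬ ∃ φ : Multiplicative (ℤ × ℤ) →* G, Injective φ)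
    {f : ℤ × ℤ → V} (hf : IsFlat Γ f) (hc : Conv Γ f) {g : G} {τ : ℤ} (hτ : 0 < τ)
    (hg : ∀ x, g • f (x, 0) = f (x + τ, 0)) (D : ℕ) :
    ∃ (γ : G) (b : ℤ) (m n : ℕ), D ≤ m ∧ D ≤ n ∧
      ∀ z w : ℤ × ℤ, f z = γ • f (w + (b, 0)) ↔ z = w ∧ -(m : ℤ) ≤ z.2 ∧ z.2 ≤ n := by
  obtain ⟨J, hJ, hJD⟩ := both hA hf hg (D + 1)
  have hJτ : 0 < (J : ℤ) * τ := by positivity
  have one : ∀ {f : ℤ × ℤ → V} (_ : IsFlat Γ f) (_ : Conv Γ f)
      (_ : ∀ y : ℤ, y.natAbs ≤ D + 1 → ∀ x, g ^ J • f (x, y) = f (x + J * τ, y)),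
      ∃ n : ℕ, D + 1 ≤ n ∧ (∀ y : ℤ, 0 ≤ y → y ≤ n → ∀ x, g ^ J • f (x, y) = f (x + J * τ, y)) ∧
        ∀ x, g ^ J • f (x, n + 1) ≠ f (x + J * τ, n + 1) := by
    intro f hf hc hJD
    rcases dich hA hf (g := g ^ J) (T := J * τ) (D := D + 1)
      (fun y h1 h2 x => hJD y (by omega) x) with hall | h
    · exfalso
      obtain ⟨c, hc⟩ := (many_rows hA hZ hf hc ((J : ℤ) * τ).toNat).bddAbove
      have := hc (show (c.toNat + 1 : ℤ) ∈ _ from
        ⟨g ^ J, J * τ, hJτ, by omega, hall (c.toNat + 1) (by omega)⟩)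
      omega
    · exact h
  obtain ⟨n, hn, h1, h2⟩ := one hf hc hJD
  obtain ⟨m, hm, h3, h4⟩ := one hf.neg2 hc.neg2 (fun y hy x => hJD (-y) (by omega) x)
  simp only [] at h3 h4
  refine ⟨g ^ J, -(J * τ), m, n, by omega, by omega, ?_⟩
  apply meet_strip hf (k := fun w => g ^ J • f (w + (-(J * τ), 0))) (hf.smul hA _ _)
    (hc.smul hA _ _) (by omega)
  · intro x y hy1 hy2
    simp only [Prod.mk_add_mk, add_zero]
    rcases le_total 0 y with h0 | h0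
    · rw [h1 y h0 hy2]
      congr 2
      ring
    · have := h3 (-y) (by omega) (by omega) (x + -(J * τ))
      rw [neg_neg] at this
      rw [this]
      congr 2
      ring
  · intro x e
    simp only [Prod.mk_add_mk, add_zero] at e
    apply h2 (x + -(J * τ))
    rw [← e]
    congr 2
    ring
  · intro x e
    simp only [Prod.mk_add_mk, add_zero] at e
    apply h4 (x + -(J * τ))
    rw [show -((m : ℤ) + 1) = -m - 1 by ring, ← e]
    congr 2
    ring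

/-- two limit flats of `f` and of each other which meet exactly in a half-plane bounded by a line
which is not periodic -/
theorem final (hA : Act G Γ) (hZ : ¬ ∃ φ : Multiplicative (ℤ × ℤ) →* G, Injective φ)
    {f : ℤ × ℤ → V} (hf : IsFlat Γ f) (hc : Conv Γ f) :
    ∃ h k : ℤ × ℤ → V, h ∈ Orb G f ∧ k ∈ Orb G f ∧ h ∈ Orb G k ∧ k ∈ Orb G h ∧
      (∀ z w : ℤ × ℤ, h z = k w ↔ z = w ∧ z.2 ≤ 0) ∧
      ¬ ∃ τ : ℤ, 0 < τ ∧ ∃ g : G, ∀ x, g • h (x, 0) = h (x + τ, 0) := by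
  obtain ⟨L, hLf, hL⟩ := (Orb.sys hA hf hc).exists_min hA ⟨f, Orb.self f⟩
  obtain ⟨l, ⟨h, hh, k, hk, ag, ne, hl⟩, hper⟩ := strict hA hZ hL.sys hL.ne
  refine ⟨h, k, hLf hh, hLf hk, hL.min k hk hh, hL.min h hh hk, ?_, ?_⟩
  · exact meetC (hL.sys.flat h hh) (hL.sys.flat k hk) (hL.sys.conv k hk) ag
      (ne_all hA (hL.sys.flat h hh) (hL.sys.flat k hk) ag ne)
  · rintro ⟨τ, hτ, g, hg⟩
    exact hper ⟨g, τ, hτ, fun x => by rw [hl, hl]; exact hg x⟩

end Pool.Agent.H6.CF
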