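import Pool.Agent.H6.CF.Count

/-!
# The growth of the number of blocks of a flat
-/

set_option autoImplicit false

namespace Pool.Agent.H6.CF

open Function Set

variable {V : Type*} {G : Type*} [Group G] [MulAction G V] {Γ : SimpleGraph V}

/-- torsion-free groups -/
def TFree (G : Type*) [Group G] : Prop := ∀ g : G, ∀ n : ℕ, 0 < n → g ^ n = 1 → g = 1

theorem TFree.free (hA : Act G Γ) (ht : TFree G) {g : G} {v : V} (h : g • v = v) : g = 1 := by
  have hm : ∀ n : ℕ, g ^ n ∈ {g : G | g • v = v} := by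
    intro n
    induction n with
    | zero => simp
    | succ n ih =>
      have ih' : g ^ n • v = v := ih
      change g ^ (n + 1) • v = v
      rw [pow_succ, mul_smul, h, ih']
  obtain ⟨i, -, j, -, hne, heq⟩ := Set.infinite_univ.exists_ne_map_eq_of_mapsTo
    (f := fun n : ℕ => g ^ n) (t := {g : G | g • v = v}) (fun n _ => hm n) (hA.stab v)
  wlog hij : i < j generalizing i j
  · exact this j i hne.symm heq.symm (by omega)
  obtain ⟨n, rfl⟩ := Nat.exists_eq_add_of_lt hij
  refine ht g (n + 1) (by omega) ?_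
  rw [add_assoc, pow_add] at heq
  exact (mul_eq_left.1 heq.symm)

theorem TFree.eq (hA : Act G Γ) (ht : TFree G) {g g' : G} {v : V} (h : g • v = g' • v) : g = g' := by
  have : (g'⁻¹ * g) • v = v := by rw [mul_smul, h, inv_smul_smul]
  have := ht.free hA this
  exact (inv_mul_eq_one.1 this).symm

/-- the classes of the blocks which hang from row `0` -/
def Hg (G : Type*) {V : Type*} [Group G] [MulAction G V] (h : ℤ × ℤ → V) (m j : ℕ) :
    Set (Quotient (SBs G V m j)) := Set.range fun x : ℤ => cl G m j h (x, -j)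

theorem Hg.sub {f h : ℤ × ℤ → V} (hh : h ∈ Orb G f) (m j : ℕ) : Hg G h m j ⊆ Bl G m j f := by
  rintro _ ⟨x, rfl⟩
  exact Bl.of_orb hh _

/-- extensions upwards -/
theorem up_count (hA : Act G Γ) (ht : TFree G) {f h k : ℤ × ℤ → V} (hf : IsFlat Γ f)
    (hh : h ∈ Orb G f) (hk : k ∈ Orb G f) (ag : ∀ x y : ℤ, y ≤ 0 → h (x, y) = k (x, y))
    (ne : ∀ x, h (x, 1) ≠ k (x, 1)) (m j : ℕ) :
    (Bl G m j f).ncard + (Hg G h m j).ncard ≤ (Bl G m (j + 1) f).ncard := by
  refine card_ext (down G m j) (Bl.finite hA hf m (j + 1)) ?_ ?_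
  · rintro _ ⟨b, rfl⟩
    exact ⟨_, ⟨b, rfl⟩, down_cl f b⟩
  · rintro _ ⟨x, rfl⟩
    refine ⟨Bl.of_orb hh _, _, Bl.of_orb hh (x, -(j : ℤ)), _, Bl.of_orb hk (x, -(j : ℤ)),
      down_cl _ _, ?_, ?_⟩
    · rw [down_cl, cl_eq]
      refine ⟨1, fun i t hi htj => ?_⟩
      rw [one_smul]
      exact (ag _ _ (by simp only []; omega)).symm
    · rw [Ne, cl_eq]
      rintro ⟨g, hg⟩
      have h1 := hg 0 0 (by omega) (by omega)
      simp only [Nat.cast_zero, add_zero] at h1
      rw [← ag x (-j) (by omega)] at h1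
      have := ht.free hA h1
      subst this
      have h2 := hg 0 (j + 1) (by omega) (by omega)
      rw [one_smul] at h2
      simp only [Nat.cast_zero, add_zero, Nat.cast_add, Nat.cast_one, neg_add_cancel_left] at h2
      exact ne x h2

/-- Morse and Hedlund's theorem for the hanging blocks -/
theorem mh (hA : Act G Γ) (ht : TFree G) {f h : ℤ × ℤ → V} (hf : IsFlat Γ f) (hh : h ∈ Orb G f)
    (hper : ¬ ∃ g : G, ∃ τ : ℤ, 0 < τ ∧ ∀ x, g • h (x, 0) = h (x + τ, 0)) (m j : ℕ) :
    (Hg G h m j).ncard + 1 ≤ (Hg G h (m + 1) j).ncard := by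
  classical
  by_contra hcon
  push Not at hcon
  have hle : (Hg G h (m + 1) j).ncard ≤ (Hg G h m j).ncard := by omega
  have f1 : (Hg G h (m + 1) j).Finite := (Bl.finite hA hf _ _).subset (Hg.sub hh _ _)
  have f0 : (Hg G h m j).Finite := (Bl.finite hA hf _ _).subset (Hg.sub hh _ _)
  -- the two projections
  let pr : Quotient (SBs G V (m + 1) j) → Quotient (SBs G V m j) :=
    Quotient.map' id fun u v h => by
      obtain ⟨g, hg⟩ := h
      exact ⟨g, fun i j hi hj => hg i j (by omega) hj⟩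
  let pl : Quotient (SBs G V (m + 1) j) → Quotient (SBs G V m j) :=
    Quotient.map' (fun u z => u (z.1 + 1, z.2)) fun u v h => by
      obtain ⟨g, hg⟩ := h
      refine ⟨g, fun i j hi hj => ?_⟩
      have := hg (i + 1) j (by omega) hj
      push_cast at this
      exact this
  have hpr : ∀ x : ℤ, pr (cl G (m + 1) j h (x, -j)) = cl G m j h (x, -j) := fun x => rfl
  have hpl : ∀ x : ℤ, pl (cl G (m + 1) j h (x, -j)) = cl G m j h (x + 1, -j) := fun x => by
    rw [show cl G m j h (x + 1, -j) = Quotient.mk (SBs G V m j)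
      (fun z : ℤ × ℤ => h (x + 1 + z.1, -j + z.2)) from rfl]
    rw [show pl (cl G (m + 1) j h (x, -j)) = Quotient.mk (SBs G V m j)
      (fun z : ℤ × ℤ => h (x + (z.1 + 1), -j + z.2)) from rfl]
    congr 1
    funext z
    congr 2
    ring
  have er : pr '' Hg G h (m + 1) j = Hg G h m j := by
    ext q
    constructor
    · rintro ⟨_, ⟨x, rfl⟩, rfl⟩
      exact ⟨x, (hpr x).symm⟩
    · rintro ⟨x, rfl⟩
      exact ⟨_, ⟨x, rfl⟩, hpr x⟩
  have el : pl '' Hg G h (m + 1) j = Hg G h m j := by
    ext q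
    constructor
    · rintro ⟨_, ⟨x, rfl⟩, rfl⟩
      exact ⟨x + 1, (hpl x).symm⟩
    · rintro ⟨x, rfl⟩
      refine ⟨_, ⟨x - 1, rfl⟩, ?_⟩
      simp only []
      rw [hpl, sub_add_cancel]
  have ge : (Hg G h m j).ncard ≤ (Hg G h (m + 1) j).ncard := by
    rw [← er]
    exact Set.ncard_image_le f1
  have ir : Set.InjOn pr (Hg G h (m + 1) j) :=
    Set.injOn_of_ncard_image_eq (by rw [er]; omega) f1
  have il : Set.InjOn pl (Hg G h (m + 1) j) :=
    Set.injOn_of_ncard_image_eq (by rw [el]; omega) f1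
  -- two equivalent blocks
  obtain ⟨a, -, b, -, hne, heq⟩ := Set.infinite_univ.exists_ne_map_eq_of_mapsTo
    (f := fun x : ℤ => cl G m j h (x, -j)) (t := Hg G h m j) (fun x _ => ⟨x, rfl⟩) f0
  wlog hab : a < b generalizing a b
  · exact this b a hne.symm heq.symm (by omega)
  obtain ⟨g, hg⟩ := cl_eq.1 heq
  have h00 := hg 0 0 (by omega) (by omega)
  simp only [Nat.cast_zero, add_zero] at h00
  -- the next column on the right
  have key : ∀ x y : ℤ, (∀ i t : ℕ, i ≤ m → t ≤ j → g • h (x + i, -j + t) = h (y + i, -j + t)) →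
      ∀ i t : ℕ, i ≤ m → t ≤ j → g • h (x + 1 + i, -j + t) = h (y + 1 + i, -j + t) := by
    intro x y hxy
    have e := ir ⟨x, rfl⟩ ⟨y, rfl⟩ (by
      simp only []
      rw [hpr, hpr, cl_eq]
      exact ⟨g, hxy⟩)
    simp only [] at e
    obtain ⟨g', hg'⟩ := cl_eq.1 e
    have : g' = g := ht.eq hA (v := h (x, -j)) (by
      have e1 := hg' 0 0 (by omega) (by omega)
      have e2 := hxy 0 0 (by omega) (by omega)
      simp only [Nat.cast_zero, add_zero] at e1 e2
      rw [e1, e2])
    subst this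
    intro i t hi ht
    have := hg' (i + 1) t (by omega) ht
    simp only [Nat.cast_add, Nat.cast_one] at this
    rw [show x + 1 + (i : ℤ) = x + (i + 1) by ring, show y + 1 + (i : ℤ) = y + (i + 1) by ring]
    exact this
  have key' : ∀ x y : ℤ, (∀ i t : ℕ, i ≤ m → t ≤ j → g • h (x + 1 + i, -j + t) = h (y + 1 + i, -j + t)) →
      ∀ i t : ℕ, i ≤ m → t ≤ j → g • h (x + i, -j + t) = h (y + i, -j + t) := by
    intro x y hxy
    have e := il ⟨x, rfl⟩ ⟨y, rfl⟩ (by
      simp only []
      rw [hpl, hpl, cl_eq]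
      exact ⟨g, hxy⟩)
    simp only [] at e
    obtain ⟨g', hg'⟩ := cl_eq.1 e
    have : g' = g := ht.eq hA (v := h (x + 1, -j)) (by
      have e1 := hg' 1 0 (by omega) (by omega)
      have e2 := hxy 0 0 (by omega) (by omega)
      simp only [Nat.cast_zero, add_zero, Nat.cast_one] at e1 e2
      rw [e1, e2])
    subst this
    intro i t hi ht
    exact hg' i t (by omega) ht
  have up : ∀ n : ℕ, ∀ i t : ℕ, i ≤ m → t ≤ j →
      g • h (a + n + i, -j + t) = h (b + n + i, -j + t) := by
    intro n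
    induction n with
    | zero =>
      intro i t hi ht
      simpa using hg i t hi ht
    | succ n ih =>
      have := key _ _ ih
      intro i t hi ht
      push_cast
      rw [← add_assoc, ← add_assoc]
      exact this i t hi ht
  have dn : ∀ n : ℕ, ∀ i t : ℕ, i ≤ m → t ≤ j →
      g • h (a - n + i, -j + t) = h (b - n + i, -j + t) := by
    intro n
    induction n with
    | zero =>
      intro i t hi ht
      simpa using hg i t hi ht
    | succ n ih =>
      refine key' _ _ fun i t hi ht => ?_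
      push_cast
      rw [show a - (n + 1) + 1 + (i : ℤ) = a - n + i by ring, show b - (n + 1) + 1 + (i : ℤ) = b - n + i by ring]
      exact ih i t hi ht
  apply hper
  refine ⟨g, b - a, by omega, fun x => ?_⟩
  rcases le_total a x with hx | hx
  · obtain ⟨n, hn⟩ := Int.eq_ofNat_of_zero_le (show 0 ≤ x - a by omega)
    have := up n 0 j (by omega) le_rfl
    simp only [Nat.cast_zero, add_zero, neg_add_cancel] at this
    rw [show x = a + n by omega, this]
    congr 2
    ring
  · obtain ⟨n, hn⟩ := Int.eq_ofNat_of_zero_le (show 0 ≤ a - x by omega)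
    have := dn n 0 j (by omega) le_rfl
    simp only [Nat.cast_zero, add_zero, neg_add_cancel] at this
    rw [show x = a - n by omega, this]
    congr 2
    ring

end Pool.Agent.H6.CF
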