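import Pool.Agent.H6.CF.Pairs

/-!
# Closed invariant families of periodic lines have bounded periods
-/

set_option autoImplicit false

namespace Pool.Agent.H6.CF

open Function Set

variable {V : Type*} {G : Type*} [Group G] [MulAction G V] {Γ : SimpleGraph V}

/-- closed invariant families of geodesic lines -/
structure LSys (G : Type*) [Group G] [MulAction G V] (Γ : SimpleGraph V)
    (C : Set (ℤ → V)) : Prop where
  geo : ∀ l ∈ C, ∀ a b : ℤ, (Γ.dist (l a) (l b) : ℤ) = |a - b|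
  mv : ∀ l ∈ C, ∀ (g : G) (b : ℤ), (fun x => g • l (x + b)) ∈ C
  clo : ∀ l : ℤ → V, (∀ R : ℕ, ∃ l' ∈ C, ∀ x : ℤ, x.natAbs ≤ R → l x = l' x) → l ∈ C

theorem LSys.rev {C : Set (ℤ → V)} (hC : LSys G Γ C) : LSys G Γ {l | (fun x => l (-x)) ∈ C} where
  geo := fun l hl a b => by
    have := hC.geo _ hl (-a) (-b)
    simp only [neg_neg] at this
    rw [this, show -a - -b = -(a - b) by ring, abs_neg]
  mv := fun l hl g b => by
    have := hC.mv _ hl g (-b)
    simpa only [neg_add, neg_neg, Set.mem_ofPred_eq] using this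
  clo := fun l hl => by
    apply hC.clo
    intro R
    obtain ⟨l', h1, h2⟩ := hl R
    exact ⟨_, h1, fun x hx => h2 (-x) (by omega)⟩

theorem tr_pow {l : ℤ → V} {g : G} {τ : ℤ} (h : ∀ x, g • l x = l (x + τ)) (n : ℕ) :
    ∀ x, g ^ n • l x = l (x + n * τ) := by
  induction n with
  | zero => intro x; simp
  | succ n ih =>
    intro x
    rw [pow_succ, mul_smul, h, ih]
    congr 1
    push_cast
    ring

theorem tr_inv {l : ℤ → V} {g : G} {τ : ℤ} (h : ∀ x, g • l x = l (x + τ)) :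
    ∀ x, g⁻¹ • l x = l (x - τ) := by
  intro x
  rw [inv_smul_eq_iff, h]
  congr 1
  ring

/-- two periodic lines which agree on a ray are equal -/
theorem ray_eq (hA : Act G Γ) {l l' : ℤ → V} {g g' : G} {τ τ' : ℤ} (hτ : 0 < τ) (hτ' : 0 < τ')
    (h : ∀ x, g • l x = l (x + τ)) (h' : ∀ x, g' • l' x = l' (x + τ'))
    (hag : ∀ x ≤ 0, l x = l' x) : l = l' := by
  obtain ⟨n, rfl⟩ := Int.eq_ofNat_of_zero_le hτ.le
  obtain ⟨n', rfl⟩ := Int.eq_ofNat_of_zero_le hτ'.le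
  -- translations by the same amount
  have a1 : ∀ x, (g ^ n') • l x = l (x + (n * n' : ℕ)) := fun x => by
    rw [tr_pow h, show (n' : ℤ) * n = ((n * n' : ℕ) : ℤ) by push_cast; ring]
  have a2 : ∀ x, (g' ^ n) • l' x = l' (x + (n * n' : ℕ)) := fun x => by
    rw [tr_pow h', show (n : ℤ) * n' = ((n * n' : ℕ) : ℤ) by push_cast; ring]
  set a := g ^ n' with ha
  set b := g' ^ n with hb
  set T := n * n' with hT
  have hTpos : 0 < T := Nat.mul_pos (by omega) (by omega)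
  have hmem : ∀ m : ℕ, b ^ m * (a ^ m)⁻¹ ∈ {g : G | g • l 0 = l 0} := by
    intro m
    simp only [Set.mem_ofPred_eq]
    rw [mul_smul, tr_inv (tr_pow a1 m), hag _ (by
      have : 0 ≤ (m : ℤ) * (T : ℕ) := by positivity
      omega), tr_pow a2 m, hag 0 le_rfl]
    congr 1
    ring
  obtain ⟨m, -, m', -, hne, heq⟩ := Set.infinite_univ.exists_ne_map_eq_of_mapsTo
    (f := fun m : ℕ => b ^ m * (a ^ m)⁻¹) (fun m _ => hmem m) (hA.stab _)
  wlog hlt : m < m' generalizing m m'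
  · exact this m' m hne.symm heq.symm (by omega)
  obtain ⟨d, rfl⟩ := Nat.exists_eq_add_of_lt hlt
  have hd : a ^ (d + 1) = b ^ (d + 1) := by
    have e : b ^ m * (a ^ m)⁻¹ = b ^ m * (b ^ (d + 1) * (a ^ (d + 1))⁻¹) * (a ^ m)⁻¹ := by
      have h := heq
      rw [show m + d + 1 = m + (d + 1) by ring, pow_add b, pow_add a, mul_inv_rev] at h
      have h4 : a ^ m * a ^ (d + 1) = a ^ (d + 1) * a ^ m := by rw [← pow_add, ← pow_add, add_comm]
      have h5 : (a ^ (d + 1))⁻¹ * (a ^ m)⁻¹ = (a ^ m * a ^ (d + 1))⁻¹ := by rw [mul_inv_rev]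
      rw [h5, h4, mul_inv_rev] at h
      rw [h]
      group
    have e2 : b ^ (d + 1) * (a ^ (d + 1))⁻¹ = 1 := by
      have h := mul_right_cancel e
      exact (mul_eq_left.1 h.symm)
    exact (mul_inv_eq_one.1 e2).symm
  have b1 : ∀ x, a ^ (d + 1) • l x = l (x + ((d + 1 : ℕ) * T : ℕ)) := fun x => by
    rw [tr_pow a1, ← Nat.cast_mul]
  have b2 : ∀ x, a ^ (d + 1) • l' x = l' (x + ((d + 1 : ℕ) * T : ℕ)) := fun x => by
    rw [hd, tr_pow a2, ← Nat.cast_mul]
  set c := a ^ (d + 1) with hc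
  set M := (d + 1) * T with hM
  have hMpos : 0 < M := Nat.mul_pos (by omega) hTpos
  funext x
  have c1 := tr_pow b1 x.natAbs (x - x.natAbs * (M : ℕ))
  have c2 := tr_pow b2 x.natAbs (x - x.natAbs * (M : ℕ))
  rw [sub_add_cancel] at c1 c2
  rw [← c1, ← c2, hag]
  have m1 : (1 : ℤ) ≤ M := by exact_mod_cast hMpos
  have m2 : (0 : ℤ) ≤ (x.natAbs : ℤ) := by omega
  have m3 : x ≤ (x.natAbs : ℤ) := by omega
  nlinarith

/-- a sequence of lines which agree with `l` on longer and longer segments but leave it to the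
right gives a line which is not periodic -/
theorem no_leave (hA : Act G Γ) {C : Set (ℤ → V)} (hC : LSys G Γ C)
    (hper : ∀ l ∈ C, ∃ g : G, ∃ τ : ℤ, 0 < τ ∧ ∀ x, g • l x = l (x + τ)) {l : ℤ → V} (hl : l ∈ C)
    (h : ∀ R : ℕ, ∃ l' ∈ C, (∀ x : ℤ, x.natAbs ≤ R → l' x = l x) ∧ ∃ x : ℤ, 0 < x ∧ l' x ≠ l x) :
    False := by
  classical
  obtain ⟨g, τ, hτ, hg⟩ := hper l hl
  -- recentred lines
  have key : ∀ R : ℕ, ∃ l' ∈ C, ∃ s : ℤ, 0 ≤ s ∧ s < τ ∧ (∀ x : ℤ, -R ≤ x → x ≤ s → l' x = l x) ∧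
      l' (s + 1) ≠ l (s + 1) := by
    intro R
    obtain ⟨l', hl', h1, x, hx, hne⟩ := h R
    have hex : ∃ m : ℕ, l' (m + 1) ≠ l (m + 1) := by
      refine ⟨(x - 1).toNat, ?_⟩
      rwa [Int.toNat_of_nonneg (by omega), sub_add_cancel]
    have h2 := Nat.find_spec hex
    have h3 := fun j (hj : j < Nat.find hex) => Nat.find_min hex hj
    set m := Nat.find hex
    have hag : ∀ x : ℤ, -R ≤ x → x ≤ m → l' x = l x := by
      intro x hx1 hx2
      rcases le_or_gt x 0 with h0 | h0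
      · exact h1 x (by omega)
      · have := h3 (x - 1).toNat (by omega)
        rw [Int.toNat_of_nonneg (by omega), sub_add_cancel] at this
        exact not_not.1 this
    have e1 := Int.emod_add_mul_ediv (m : ℤ) τ
    have e2 := Int.emod_nonneg (m : ℤ) hτ.ne'
    have e3 := Int.emod_lt_of_pos (m : ℤ) hτ
    have e4 : 0 ≤ (m : ℤ) / τ := Int.ediv_nonneg (by omega) hτ.le
    obtain ⟨q, hq⟩ := Int.eq_ofNat_of_zero_le e4
    rw [hq] at e1
    have e5 : (0 : ℤ) ≤ τ * (q : ℤ) := by positivity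
    refine ⟨_, hC.mv l' hl' (g ^ q)⁻¹ (τ * q), (m : ℤ) % τ, e2, e3, fun x hx1 hx2 => ?_, ?_⟩
    · rw [hag _ (by omega) (by omega), tr_inv (tr_pow hg q)]
      congr 1
      ring
    · rw [show (m : ℤ) % τ + 1 + τ * q = m + 1 by omega]
      intro h5
      apply h2
      rw [inv_smul_eq_iff, tr_pow hg] at h5
      rw [h5]
      congr 1
      linarith
  choose L hL s hs0 hsτ hag hne using key
  obtain ⟨l', hl'⟩ := cluster L (fun x => {w | Γ.dist (l 0) w ≤ x.natAbs})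
    (fun x => hA.ball x.natAbs (l 0)) (fun n x => by
      have h1 := hC.geo _ (hL n) 0 x
      rw [hag n 0 (by omega) (hs0 n)] at h1
      simp only [zero_sub, abs_neg, Int.abs_eq_natAbs] at h1
      simp only [Set.mem_ofPred_eq]
      omega)
  have hwin : ∀ R : ℕ, {x : ℤ | x.natAbs ≤ R}.Finite := fun R =>
    (Set.finite_Icc (-(R : ℤ)) R).subset fun x (hx : x.natAbs ≤ R) => ⟨by omega, by omega⟩
  have hl'C : l' ∈ C := by
    apply hC.clo
    intro R
    obtain ⟨n, -, hn⟩ := hl' _ (hwin R) 0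
    exact ⟨_, hL n, fun x hx => (hn x hx).symm⟩
  obtain ⟨g', τ', hτ', hg'⟩ := hper l' hl'C
  have heq : l = l' := by
    refine ray_eq hA hτ hτ' hg hg' fun x hx => ?_
    obtain ⟨n, hn1, hn⟩ := hl' _ (hwin x.natAbs) x.natAbs
    rw [← hn x (show x.natAbs ≤ x.natAbs from le_rfl), hag n x (by omega) (by have := hs0 n; omega)]
  obtain ⟨n, -, hn⟩ := hl' _ (hwin (τ.natAbs + 1)) 0
  apply hne n
  have h0 := hs0 n
  have h1 := hsτ n
  rw [hn (s n + 1) (show (s n + 1).natAbs ≤ τ.natAbs + 1 by omega), heq]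

/-- closed invariant families of periodic lines have bounded periods -/
theorem bounded (hA : Act G Γ) {C : Set (ℤ → V)} (hC : LSys G Γ C)
    (hper : ∀ l ∈ C, ∃ g : G, ∃ τ : ℤ, 0 < τ ∧ ∀ x, g • l x = l (x + τ)) :
    ∃ N : ℕ, ∀ l ∈ C, ∃ g : G, ∃ τ : ℤ, 0 < τ ∧ τ ≤ N ∧ ∀ x, g • l x = l (x + τ) := by
  classical
  by_contra hcon
  push Not at hcon
  choose L0 hL0 hN0 using hcon
  obtain ⟨K, hK, hGK⟩ := hA.orb
  choose u hu using fun n => hGK (L0 n 0)
  have hL : ∀ n, (fun x => u n • L0 n x) ∈ C := fun n => by simpa using hC.mv _ (hL0 n) (u n) 0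
  obtain ⟨l, hl⟩ := cluster (fun n x => u n • L0 n x) (fun x : ℤ => {w | ∃ v ∈ K, Γ.dist v w ≤ x.natAbs})
    (fun x => hA.ballK hK x.natAbs) (fun n x => by
      have h1 := hC.geo _ (hL n) 0 x
      simp only [zero_sub, abs_neg, Int.abs_eq_natAbs] at h1
      exact ⟨_, hu n, by omega⟩)
  have hwin : ∀ R : ℕ, {x : ℤ | x.natAbs ≤ R}.Finite := fun R =>
    (Set.finite_Icc (-(R : ℤ)) R).subset fun x (hx : x.natAbs ≤ R) => ⟨by omega, by omega⟩
  have hlC : l ∈ C := by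
    apply hC.clo
    intro R
    obtain ⟨n, -, hn⟩ := hl _ (hwin R) 0
    exact ⟨_, hL n, fun x hx => (hn x hx).symm⟩
  obtain ⟨g, τ, hτ, hg⟩ := hper l hlC
  have key : ∀ R : ℕ, ∃ l' ∈ C, (∀ x : ℤ, x.natAbs ≤ R → l' x = l x) ∧ ∃ x : ℤ, l' x ≠ l x := by
    intro R
    obtain ⟨n, hn1, hn⟩ := hl _ (hwin R) τ.natAbs
    refine ⟨_, hL n, hn, ?_⟩
    by_contra hcon
    push Not at hcon
    have h1 := hN0 n ((u n)⁻¹ * g * u n) τ hτ (by omega)
    obtain ⟨x, hx⟩ := h1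
    apply hx
    rw [mul_smul, mul_smul, hcon x, hg, ← hcon (x + τ), inv_smul_smul]
  by_cases hpos : ∀ R : ℕ, ∃ l' ∈ C, (∀ x : ℤ, x.natAbs ≤ R → l' x = l x) ∧
      ∃ x : ℤ, 0 < x ∧ l' x ≠ l x
  · exact no_leave hA hC hper hlC hpos
  · push Not at hpos
    obtain ⟨R0, hR0⟩ := hpos
    refine no_leave hA hC.rev (fun l hl => ?_) (l := fun x => l (-x)) (by simpa using hlC) ?_
    · obtain ⟨g, τ, hτ, hg⟩ := hper _ hl
      refine ⟨g⁻¹, τ, hτ, fun x => ?_⟩
      have := tr_inv hg (-x)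
      simp only [neg_neg, show -(-x - τ) = x + τ by ring] at this
      exact this
    · intro R
      obtain ⟨l', hl', h1, x, hx⟩ := key (max R R0)
      refine ⟨fun x => l' (-x), by simpa using hl', fun x hx => h1 _ (by omega), -x, ?_, by simpa using hx⟩
      by_contra hneg
      rcases (show x = 0 ∨ 0 < x by omega) with h0 | h0
      · exact hx (h1 x (by omega))
      · exact hx (hR0 l' hl' (fun x hx => h1 x (by omega)) x h0)

end Pool.Agent.H6.CF
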