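import Pool.Agent.H6.CF.Periods
import Pool.Agent.H6.CM.Main

/-!
# Infinitely many rows of bounded period give `ℤ²`
-/

set_option autoImplicit false

namespace Pool.Agent.H6.CF

open Function Set
open scoped Pointwise

variable {V : Type*} {G : Type*} [Group G] [MulAction G V] {Γ : SimpleGraph V}

/-- rows of convex flats are convex -/
theorem row_cv {f : ℤ × ℤ → V} (hf : IsFlat Γ f) (hc : Conv Γ f) (y : ℤ) :
    CM.Cv Γ (range fun x : ℤ => f (x, y)) := by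
  rintro _ ⟨a, rfl⟩ _ ⟨b, rfl⟩ m hm
  obtain ⟨u, rfl, hd⟩ := hc.between hf hm
  refine ⟨u.1, ?_⟩
  simp only [Int.abs_eq_natAbs] at hd
  have : u.2 = y := by omega
  simp only [← this]

theorem tr_zpow {l : ℤ → V} {g : G} {τ : ℤ} (h : ∀ x, g • l x = l (x + τ)) (k : ℤ) :
    ∀ x, g ^ k • l x = l (x + k * τ) := by
  intro x
  rcases Int.eq_nat_or_neg k with ⟨n, rfl | rfl⟩
  · rw [zpow_natCast]
    exact tr_pow h n x
  · rw [zpow_neg, zpow_natCast, tr_inv (tr_pow h n) x]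
    congr 1
    ring

theorem Act.geo (hA : Act G Γ) : ∃ B : Set V, CM.Geo Γ G B := by
  obtain ⟨K, hK, hGK⟩ := hA.orb
  exact ⟨K, ⟨hA.med, hA.fin, hA.aut, hA.stab, hK, hGK⟩⟩

/-- The rows of a flat which have bounded periods are finite in number, unless the group contains
`ℤ²`. -/
theorem many_rows (hA : Act G Γ) (hZ : ¬ ∃ φ : Multiplicative (ℤ × ℤ) →* G, Injective φ)
    {f : ℤ × ℤ → V} (hf : IsFlat Γ f) (hcv : Conv Γ f) (N : ℕ) :
    {y : ℤ | ∃ g : G, ∃ τ : ℤ, 0 < τ ∧ τ ≤ N ∧ ∀ x, g • f (x, y) = f (x + τ, y)}.Finite := by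
  classical
  by_contra hinf
  have hinf : {y : ℤ | ∃ g : G, ∃ τ : ℤ, 0 < τ ∧ τ ≤ N ∧
    ∀ x, g • f (x, y) = f (x + τ, y)}.Infinite := hinf
  obtain ⟨B, hG⟩ := hA.geo
  choose! g τ hτ0 hτN hg using fun (y : ℤ) (hy : y ∈ {y : ℤ | ∃ g : G, ∃ τ : ℤ, 0 < τ ∧ τ ≤ N ∧
    ∀ x, g • f (x, y) = f (x + τ, y)}) => hy
  choose u hu using fun y : ℤ => hG.cov (f (0, y))
  -- finitely many types of rows
  have hpi : {w : Fin (N + 1) → V | ∀ i, w i ∈ {w | ∃ v ∈ B, Γ.dist v w ≤ N}}.Finite :=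
    Set.Finite.pi' fun _ => hA.ballK hG.fin N
  have hfin := (Set.finite_Icc (0 : ℤ) N).prod ((hG.move N).prod hpi)
  set T := (Set.Icc (0 : ℤ) N) ×ˢ ({u : G | ∃ v ∈ B, Γ.dist v (u • v) ≤ N} ×ˢ
    {w : Fin (N + 1) → V | ∀ i, w i ∈ {w | ∃ v ∈ B, Γ.dist v w ≤ N}}) with hT
  set S := {y : ℤ | ∃ g : G, ∃ τ : ℤ, 0 < τ ∧ τ ≤ N ∧ ∀ x, g • f (x, y) = f (x + τ, y)} with hSdef
  let F : ℤ → ℤ × G × (Fin (N + 1) → V) := fun y =>
    (τ y, u y * g y * (u y)⁻¹, fun i => u y • f (((i : ℕ) : ℤ), y))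
  have hF : ∀ y ∈ S, F y ∈ T := by
    intro y hy
    refine ⟨⟨(hτ0 y hy).le, hτN y hy⟩, ⟨_, hu y, ?_⟩, ?_⟩
    · simp only [F]
      rw [mul_smul, mul_smul, inv_smul_smul, hG.dist, hg y hy]
      have := hf (0, y) (0 + τ y, y)
      have h1 := hτ0 y hy
      have h2 := hτN y hy
      simp only [Int.abs_eq_natAbs] at this
      omega
    · intro i
      refine ⟨_, hu y, ?_⟩
      simp only [F]
      rw [hG.dist]
      have := hf (0, y) (((i : ℕ) : ℤ), y)
      have h2 := i.2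
      simp only [Int.abs_eq_natAbs] at this
      omega
  obtain ⟨t, hS⟩ : ∃ t, {y | y ∈ S ∧ F y = t}.Infinite := by
    by_contra hcon
    push Not at hcon
    refine hinf ((hfin.biUnion fun t _ => hcon t).subset fun y hy => ?_)
    exact Set.mem_biUnion (hF y hy) ⟨hy, rfl⟩
  obtain ⟨y0, hy0, ht0⟩ := hS.nonempty
  -- the rows in the fibre are translates of the row `y0`
  have hrow : ∀ y ∈ {y | y ∈ S ∧ F y = t}, ∀ x, ((u y)⁻¹ * u y0) • f (x, y0) = f (x, y) := by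
    rintro y ⟨hy, hty⟩ x
    have e := hty.trans ht0.symm
    simp only [F, Prod.mk.injEq] at e
    obtain ⟨e1, e2, e3⟩ := e
    have e4 : ∀ i : ℕ, i ≤ N → u y • f ((i : ℤ), y) = u y0 • f ((i : ℤ), y0) := fun i hi =>
      congrFun e3 ⟨i, by omega⟩
    have h1 := hτ0 y hy
    have h2 := hτN y hy
    -- division with remainder
    have d1 := Int.emod_add_mul_ediv x (τ y)
    have d2 := Int.emod_nonneg x h1.ne'
    have d3 := Int.emod_lt_of_pos x h1
    have hz : ∀ (y : ℤ) (_ : y ∈ S) (k x : ℤ), g y ^ k • f (x, y) = f (x + k * τ y, y) :=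
      fun y hy k x => tr_zpow (l := fun x => f (x, y)) (hg y hy) k x
    obtain ⟨i, hi⟩ := Int.eq_ofNat_of_zero_le d2
    have e5 := e4 i (by omega)
    have hx1 := hz y hy (x / τ y) i
    have hx2 := hz y0 hy0 (x / τ y) i
    rw [← e1] at hx2
    rw [show (i : ℤ) + x / τ y * τ y = x by rw [← hi]; linarith] at hx1 hx2
    rw [mul_smul, inv_smul_eq_iff, ← hx1, ← hx2]
    -- conjugate elements
    have e6 : u y * g y ^ (x / τ y) = (u y0 * g y0 ^ (x / τ y) * (u y0)⁻¹) * u y := by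
      rw [← conj_zpow, ← e2, conj_zpow]
      group
    rw [← mul_smul, ← mul_smul, e6, mul_smul _ (u y), e5, mul_smul, mul_smul, mul_smul,
      inv_smul_smul]
  have h0 := hτ0 y0 hy0
  have hCC : CM.CC Γ (Subgroup.zpowers (g y0)) (range fun x : ℤ => f (x, y0)) := by
    refine ⟨row_cv hf hcv y0, ?_, ?_⟩
    · rintro _ ⟨k, rfl⟩ _ ⟨x, rfl⟩
      exact ⟨_, (tr_zpow (l := fun x => f (x, y0)) (hg y0 hy0) k x).symm⟩
    · refine ⟨(fun x : ℤ => f (x, y0)) '' Set.Icc 0 (τ y0), (Set.finite_Icc _ _).image _, ?_⟩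
      rintro _ ⟨x, rfl⟩
      refine ⟨g y0 ^ (-(x / τ y0)), ⟨_, rfl⟩, x % τ y0, ⟨Int.emod_nonneg x h0.ne',
        (Int.emod_lt_of_pos x h0).le⟩, ?_⟩
      have := tr_zpow (l := fun x => f (x, y0)) (hg y0 hy0) (-(x / τ y0)) x
      rw [this]
      have d1 := Int.emod_add_mul_ediv x (τ y0)
      simp only []
      congr 2
      linarith
  have hZ' : ¬ ∃ g' ∈ CM.cst hG (range fun x : ℤ => f (x, y0)), ∃ u ∈ Subgroup.zpowers (g y0),
      Commute g' u ∧ (∀ a b : ℤ, g' ^ a * u ^ b = 1 → a = 0 ∧ b = 0) ∧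
      ∀ n : ℤ, g' ^ n ∈ Subgroup.zpowers (g y0) → n = 0 := by
    rintro ⟨g', -, u', -, hc, hinj, -⟩
    exact hZ (CM.z2_of_comm hc hinj)
  have hfin2 := CM.cst_fin hG hCC (Set.infinite_range_of_injective fun a b hab => by
    have := hf.inj hab
    simpa using this) hZ'
  refine hS (Set.Finite.of_finite_image (f := fun y : ℤ => range fun x : ℤ => f (x, y))
    (hfin2.subset ?_) ?_)
  · rintro _ ⟨y, hy, rfl⟩
    have himg : (range fun x : ℤ => f (x, y)) =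
        ((u y)⁻¹ * u y0) • (range fun x : ℤ => f (x, y0)) := by
      rw [Set.smul_set_range]
      congr 1
      funext x
      exact (hrow y hy x).symm
    refine ⟨(u y)⁻¹ * u y0, ?_, himg⟩
    rw [CM.mem_cst, ← himg]
    refine ⟨(y - y0).natAbs, ?_, ?_⟩
    · rintro _ ⟨x, rfl⟩
      refine ⟨_, ⟨x, rfl⟩, ?_⟩
      have := hf (x, y0) (x, y)
      simp only [sub_self, abs_zero, Int.abs_eq_natAbs] at this
      simp only []
      omega
    · rintro _ ⟨x, rfl⟩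
      refine ⟨_, ⟨x, rfl⟩, ?_⟩
      have := hf (x, y0) (x, y)
      simp only [sub_self, abs_zero, Int.abs_eq_natAbs] at this
      simp only []
      omega
  · intro y _ y' _ h
    have h1 : f (0, y) ∈ range fun x : ℤ => f (x, y') := by
      rw [← show (range fun x : ℤ => f (x, y)) = range fun x : ℤ => f (x, y') from h]
      exact ⟨0, rfl⟩
    obtain ⟨x, hx⟩ := h1
    have := hf.inj hx
    simp only [Prod.mk.injEq] at this
    exact this.2.symm

end Pool.Agent.H6.CF
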