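import Pool.Agent.H6.CF.Rows

/-!
# Lines of separation in closed families of flats
-/

set_option autoImplicit false

namespace Pool.Agent.H6.CF

open Function Set
open scoped Pointwise

variable {V : Type*} {G : Type*} [Group G] [MulAction G V] {Γ : SimpleGraph V}

/-- Let the row `0` of the flat `h` be translated by `g`.  Unless all rows above are translated
by some power of `g`, the flat and its translate by a power of `g` separate far above. -/
theorem separate (hA : Act G Γ) {h : ℤ × ℤ → V} (hh : IsFlat Γ h) {g : G} {τ : ℤ}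
    (hg : ∀ x, g • h (x, 0) = h (x + τ, 0)) (D : ℕ) : ∃ J : ℕ, 0 < J ∧
      (∀ y : ℤ, 0 ≤ y → y ≤ D → ∀ x, g ^ J • h (x, y) = h (x + J * τ, y)) ∧
      ((∀ y : ℤ, 0 ≤ y → ∀ x, g ^ J • h (x, y) = h (x + J * τ, y)) ∨
        ∃ n : ℕ, D ≤ n ∧ (∀ y : ℤ, 0 ≤ y → y ≤ n → ∀ x, g ^ J • h (x, y) = h (x + J * τ, y)) ∧
          g ^ J • h (0, n + 1) ≠ h (J * τ, n + 1)) := by
  classical
  -- the strips over the row 0
  have hfin : {w : Fin (D + 1) → V | ∀ i, w i ∈ {w | Γ.dist (h (0, 0)) w ≤ D}}.Finite :=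
    Set.Finite.pi' fun _ => hA.ball D _
  have h0 : ∀ (j : ℕ) (x : ℤ), g ^ j • h (x - j * τ, 0) = h (x, 0) := by
    intro j x
    rw [tr_pow (l := fun x => h (x, 0)) hg j (x - j * τ)]
    simp
  obtain ⟨j, -, j', -, hne, heq⟩ := Set.infinite_univ.exists_ne_map_eq_of_mapsTo
    (f := fun (j : ℕ) (i : Fin (D + 1)) => g ^ j • h (0 - j * τ, ((i : ℕ) : ℤ)))
    (t := {w : Fin (D + 1) → V | ∀ i, w i ∈ {w | Γ.dist (h (0, 0)) w ≤ D}}) (fun j _ i => by
      simp only [Set.mem_ofPred_eq]
      rw [← h0 j 0, hA.dist]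
      have := hh (0 - j * τ, 0) (0 - j * τ, ((i : ℕ) : ℤ))
      have h2 := i.2
      simp only [sub_self, abs_zero, Int.abs_eq_natAbs] at this
      omega) hfin
  wlog hlt : j < j' generalizing j j'
  · exact this j' j hne.symm heq.symm (by omega)
  obtain ⟨J, rfl⟩ := Nat.exists_eq_add_of_lt hlt
  refine ⟨J + 1, by omega, ?_⟩
  -- the strip of height `D`
  have hk : IsFlat Γ (fun z => (g ^ (J + 1)) • h (z + (-((J + 1 : ℕ) * τ), 0))) := hh.smul hA _ _
  have hstep : ∀ y : ℤ, 0 ≤ y → (∀ x, g ^ (J + 1) • h (x, y) = h (x + (J + 1 : ℕ) * τ, y)) →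
      ∀ x0, g ^ (J + 1) • h (x0, y + 1) = h (x0 + (J + 1 : ℕ) * τ, y + 1) →
      ∀ x, g ^ (J + 1) • h (x, y + 1) = h (x + (J + 1 : ℕ) * τ, y + 1) := by
    intro y hy h1 x0 h2 x
    have := row_prop hA.med hh hk (y := y) (y' := y + 1) (by simp) Set.ordConnected_univ
      (fun x _ => by
        simp only [Prod.mk_add_mk, add_zero]
        rw [h1]
        congr 2
        ring) (Set.mem_univ (x0 + (J + 1 : ℕ) * τ)) (by
        simp only [Prod.mk_add_mk, add_zero, add_neg_cancel_right]
        rw [h2]) (x + (J + 1 : ℕ) * τ) (Set.mem_univ _)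
    simp only [Prod.mk_add_mk, add_zero, add_neg_cancel_right] at this
    exact this.symm
  have hbase : ∀ y : ℕ, y ≤ D → ∀ x, g ^ (J + 1) • h (x, (y : ℤ)) = h (x + (J + 1 : ℕ) * τ, (y : ℤ)) := by
    intro y
    induction y with
    | zero =>
      intro _ x
      exact tr_pow (l := fun x => h (x, 0)) hg (J + 1) x
    | succ y ih =>
      intro hy
      have e := congrFun heq ⟨y + 1, by omega⟩
      simp only [] at e
      have e2 : g ^ (J + 1) • h (0 - ((j + J + 1 : ℕ) : ℤ) * τ, ((y + 1 : ℕ) : ℤ)) =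
          h (0 - ((j + J + 1 : ℕ) : ℤ) * τ + (J + 1 : ℕ) * τ, ((y + 1 : ℕ) : ℤ)) := by
        rw [show j + J + 1 = j + (J + 1) by ring, pow_add, mul_smul] at e
        have e3 := smul_left_cancel _ e
        rw [show j + J + 1 = j + (J + 1) by ring, ← e3]
        congr 2
        push_cast
        ring
      have := hstep y (by omega) (ih (by omega)) _ (by push_cast at e2 ⊢; exact e2)
      push_cast at this ⊢
      exact this
  refine ⟨fun y h1 h2 x => ?_, ?_⟩
  · obtain ⟨n, rfl⟩ := Int.eq_ofNat_of_zero_le h1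
    exact hbase n (by omega) x
  · by_cases hall : ∀ n : ℕ, g ^ (J + 1) • h (0, (n : ℤ) + 1) = h ((J + 1 : ℕ) * τ, (n : ℤ) + 1)
    · left
      intro y hy
      obtain ⟨n, rfl⟩ := Int.eq_ofNat_of_zero_le hy
      induction n with
      | zero => exact fun x => hbase 0 (by omega) x
      | succ n ih =>
        have := hstep n (by omega) (ih (by omega)) 0 (by rw [hall n, zero_add])
        push_cast at this ⊢
        exact this
    · right
      push Not at hall
      have h1 := Nat.find_spec hall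
      have h2 := fun j (hj : j < Nat.find hall) => Nat.find_min hall hj
      set n := Nat.find hall
      have h3 : ∀ y : ℕ, y ≤ n → ∀ x, g ^ (J + 1) • h (x, (y : ℤ)) = h (x + (J + 1 : ℕ) * τ, (y : ℤ)) := by
        intro y
        induction y with
        | zero => exact fun _ => hbase 0 (by omega)
        | succ y ih =>
          intro hy
          have := hstep y (by omega) (ih (by omega)) 0 (by
            rw [zero_add]
            exact not_not.1 (h2 y (by omega)))
          push_cast at this ⊢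
          exact this
      refine ⟨n, ?_, fun y hy1 hy2 x => ?_, h1⟩
      · by_contra hcon
        apply h1
        have := hbase (n + 1) (by omega) 0
        rw [zero_add] at this
        push_cast at this ⊢
        exact this
      · obtain ⟨m, rfl⟩ := Int.eq_ofNat_of_zero_le hy1
        exact h3 m (by omega) x

/-- translations of segments -/
theorem tr_win {l : ℤ → V} {g : G} {T a b : ℤ} (hT : 0 ≤ T) (h : ∀ x, a ≤ x → x ≤ b → g • l x = l (x + T))
    (n : ℕ) : ∀ x, a ≤ x → x + n * T ≤ b + T → g ^ n • l x = l (x + n * T) := by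
  induction n with
  | zero => intro x _ _; simp
  | succ n ih =>
    intro x h1 h2
    push_cast at h2
    have h3 : (0 : ℤ) ≤ n * T := by positivity
    rw [pow_succ, mul_smul, h x h1 (by nlinarith), ih (x + T) (by omega) (by nlinarith)]
    congr 1
    push_cast
    ring

/-- the stabilisers of vertices are bounded -/
theorem Act.stab_bound (hA : Act G Γ) : ∃ S : ℕ, 0 < S ∧ ∀ (v : V) (F : ℕ → G),
    (∀ j ≤ S, F j • v = v) → ∃ i j : ℕ, i < j ∧ j ≤ S ∧ F i = F j := by
  classical
  obtain ⟨K, hK, hGK⟩ := hA.orb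
  have hZ : (⋃ v ∈ K, {g : G | g • v = v}).Finite := hK.biUnion fun v _ => hA.stab v
  refine ⟨hZ.toFinset.card + 1, by omega, fun v F hF => ?_⟩
  obtain ⟨u, hu⟩ := hGK v
  by_contra hcon
  push Not at hcon
  have hinj : Set.InjOn (fun j => u * F j * u⁻¹) (Finset.range (hZ.toFinset.card + 1 + 1) : Set ℕ) := by
    intro i hi j hj hij
    simp only [Finset.coe_range, Set.mem_Iio] at hi hj
    have e : F i = F j := by
      have := mul_right_cancel hij
      exact mul_left_cancel this
    rcases lt_trichotomy i j with h | h | h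
    · exact absurd e (hcon i j h (by omega))
    · exact h
    · exact absurd e.symm (hcon j i h (by omega))
  have hsub : (Finset.range (hZ.toFinset.card + 1 + 1)).image (fun j => u * F j * u⁻¹) ⊆
      hZ.toFinset := by
    intro x hx
    rw [Finset.mem_image] at hx
    obtain ⟨j, hj, rfl⟩ := hx
    rw [Finset.mem_range] at hj
    rw [Set.Finite.mem_toFinset]
    refine Set.mem_biUnion hu ?_
    show (u * F j * u⁻¹) • u • v = u • v
    rw [mul_smul, inv_smul_smul, mul_smul, hF j (by omega)]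
  have := Finset.card_le_card hsub
  rw [Finset.card_image_of_injOn hinj, Finset.card_range] at this
  omega

/-- lines which are locally periodic, with large windows -/
theorem loc_glob (hA : Act G Γ) (T : ℕ) (hT : 0 < T) : ∃ M P : ℕ, 0 < P ∧ ∀ l : ℤ → V,
    (∀ x0 : ℤ, ∃ g : G, ∀ x, x0 - M ≤ x → x ≤ x0 + M → g • l x = l (x + T)) →
      ∃ g : G, ∀ x, g • l x = l (x + P) := by
  obtain ⟨S, hS0, hS⟩ := hA.stab_bound
  refine ⟨S.factorial * T + S * T + 1, S.factorial * T, by positivity, fun l hl => ?_⟩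
  choose g hg using hl
  have hSS : S ≤ S.factorial := Nat.self_le_factorial S
  -- consecutive windows
  have step : ∀ x0 : ℤ, g x0 ^ S.factorial = g (x0 + 1) ^ S.factorial := by
    intro x0
    have h1 : ∀ j ≤ S, g x0 ^ j • l x0 = l (x0 + j * T) := fun j hj =>
      tr_win (by positivity) (hg x0) j x0 (by omega) (by
        have : (j : ℤ) * T ≤ S * T := by
          have : (j : ℤ) ≤ S := by omega
          nlinarith
        push_cast
        nlinarith [(by positivity : (0 : ℤ) ≤ (S.factorial : ℤ) * T)])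
    have h2 : ∀ j ≤ S, g (x0 + 1) ^ j • l x0 = l (x0 + j * T) := fun j hj =>
      tr_win (by positivity) (hg (x0 + 1)) j x0 (by
        push_cast
        have h3 : (0 : ℤ) ≤ (S.factorial : ℤ) * T := by positivity
        have h4 : (0 : ℤ) ≤ (S : ℤ) * T := by positivity
        omega) (by
        have : (j : ℤ) * T ≤ S * T := by
          have : (j : ℤ) ≤ S := by omega
          nlinarith
        push_cast
        nlinarith [(by positivity : (0 : ℤ) ≤ (S.factorial : ℤ) * T)])
    obtain ⟨i, j, hij, hjS, heq⟩ := hS (l x0) (fun j => (g (x0 + 1) ^ j)⁻¹ * g x0 ^ j) (fun j hj => by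
      rw [mul_smul, h1 j hj, ← h2 j hj, inv_smul_smul])
    obtain ⟨d, rfl⟩ := Nat.exists_eq_add_of_lt hij
    have e2 : g x0 ^ (d + 1) = g (x0 + 1) ^ (d + 1) := by
      set a := g x0
      set b := g (x0 + 1)
      have e : (b ^ i)⁻¹ * a ^ i = (b ^ i)⁻¹ * ((b ^ (d + 1))⁻¹ * a ^ (d + 1)) * a ^ i := by
        have h := heq
        rw [show i + d + 1 = (d + 1) + i by ring, pow_add b, pow_add a, mul_inv_rev] at h
        rw [h]
        simp only [mul_assoc]
      have e2 : (b ^ (d + 1))⁻¹ * a ^ (d + 1) = 1 := by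
        have h := mul_right_cancel e
        exact (mul_eq_left.1 h.symm)
      exact (inv_mul_eq_one.1 e2).symm
    obtain ⟨c, hc⟩ := Nat.dvd_factorial (show 0 < d + 1 by omega) (show d + 1 ≤ S by omega)
    rw [hc, pow_mul, pow_mul, e2]
  have all : ∀ x0 : ℤ, g x0 ^ S.factorial = g 0 ^ S.factorial := by
    intro x0
    induction x0 using Int.induction_on with
    | zero => rfl
    | succ n ih => rw [← step n, ih]
    | pred n ih =>
      have := step (-(n : ℤ) - 1)
      rw [sub_add_cancel] at this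
      rw [this, ih]
  refine ⟨g 0 ^ S.factorial, fun x => ?_⟩
  rw [← all x, tr_win (by positivity) (hg x) S.factorial x (by omega) (by push_cast; nlinarith)]
  push_cast
  rfl

/-- either all rows above are translated, or there is a first one which is not -/
theorem dich (hA : Act G Γ) {h : ℤ × ℤ → V} (hh : IsFlat Γ h) {g : G} {T : ℤ} {D : ℕ}
    (hD : ∀ y : ℤ, 0 ≤ y → y ≤ D → ∀ x, g • h (x, y) = h (x + T, y)) :
    (∀ y : ℤ, 0 ≤ y → ∀ x, g • h (x, y) = h (x + T, y)) ∨
      ∃ n : ℕ, D ≤ n ∧ (∀ y : ℤ, 0 ≤ y → y ≤ n → ∀ x, g • h (x, y) = h (x + T, y)) ∧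
        ∀ x, g • h (x, n + 1) ≠ h (x + T, n + 1) := by
  classical
  have hk : IsFlat Γ (fun z => g • h (z + (-T, 0))) := hh.smul hA _ _
  have hstep : ∀ y : ℤ, 0 ≤ y → (∀ x, g • h (x, y) = h (x + T, y)) →
      ∀ x0, g • h (x0, y + 1) = h (x0 + T, y + 1) →
      ∀ x, g • h (x, y + 1) = h (x + T, y + 1) := by
    intro y hy h1 x0 h2 x
    have := row_prop hA.med hh hk (y := y) (y' := y + 1) (by simp) Set.ordConnected_univ
      (fun x _ => by
        simp only [Prod.mk_add_mk, add_zero]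
        rw [h1]
        congr 2
        ring) (Set.mem_univ (x0 + T)) (by
        simp only [Prod.mk_add_mk, add_zero, add_neg_cancel_right]
        rw [h2]) (x + T) (Set.mem_univ _)
    simp only [Prod.mk_add_mk, add_zero, add_neg_cancel_right] at this
    exact this.symm
  by_cases hall : ∀ n : ℕ, g • h (0, (n : ℤ) + 1) = h (0 + T, (n : ℤ) + 1)
  · left
    intro y hy
    obtain ⟨n, rfl⟩ := Int.eq_ofNat_of_zero_le hy
    induction n with
    | zero => exact fun x => hD 0 le_rfl (by omega) x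
    | succ n ih =>
      have := hstep n (by omega) (ih (by omega)) 0 (hall n)
      push_cast at this ⊢
      exact this
  · right
    push Not at hall
    have h1 := Nat.find_spec hall
    have h2 := fun j (hj : j < Nat.find hall) => Nat.find_min hall hj
    set n := Nat.find hall
    have h3 : ∀ y : ℕ, y ≤ n → ∀ x, g • h (x, (y : ℤ)) = h (x + T, (y : ℤ)) := by
      intro y
      induction y with
      | zero => exact fun _ => hD 0 le_rfl (by omega)
      | succ y ih =>
        intro hy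
        have := hstep y (by omega) (ih (by omega)) 0 (not_not.1 (h2 y (by omega)))
        push_cast at this ⊢
        exact this
    refine ⟨n, ?_, fun y hy1 hy2 x => ?_, fun x hx => ?_⟩
    · by_contra hcon
      exact h1 (by simpa using hD (n + 1) (by omega) (by omega) 0)
    · obtain ⟨m, rfl⟩ := Int.eq_ofNat_of_zero_le hy1
      exact h3 m (by omega) x
    · exact h1 (hstep n (by omega) (h3 n le_rfl) x hx 0)

/-- a power of a translation of the row `0` translates the strip of height `D` on both sides -/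
theorem both (hA : Act G Γ) {h : ℤ × ℤ → V} (hh : IsFlat Γ h) {g : G} {τ : ℤ}
    (hg : ∀ x, g • h (x, 0) = h (x + τ, 0)) (D : ℕ) : ∃ J : ℕ, 0 < J ∧
      ∀ y : ℤ, y.natAbs ≤ D → ∀ x, g ^ J • h (x, y) = h (x + J * τ, y) := by
  obtain ⟨J, hJ, h1, -⟩ := separate hA hh hg D
  obtain ⟨J', hJ', h2, -⟩ := separate hA hh.neg2 (g := g) (τ := τ) (by simpa using hg) D
  refine ⟨J * J', Nat.mul_pos hJ hJ', fun y hy x => ?_⟩
  rcases le_total 0 y with h0 | h0
  · have := tr_pow (l := fun x => h (x, y)) (fun x => h1 y h0 (by omega) x) J' x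
    rw [pow_mul, this]
    congr 2
    push_cast
    ring
  · have := tr_pow (l := fun x => h (x, y)) (g := g ^ J') (τ := J' * τ) (fun x => by
      have := h2 (-y) (by omega) (by omega) x
      simpa using this) J x
    rw [mul_comm, pow_mul, this]
    congr 2
    push_cast
    ring

/-- the lines along which two members of a family of flats separate -/
def SL (L : Set (ℤ × ℤ → V)) : Set (ℤ → V) :=
  {l | ∃ h ∈ L, ∃ k ∈ L, (∀ x y : ℤ, y ≤ 0 → h (x, y) = k (x, y)) ∧ h (0, 1) ≠ k (0, 1) ∧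
    ∀ x, l x = h (x, 0)}

theorem ne_all (hA : Act G Γ) {h k : ℤ × ℤ → V} (hh : IsFlat Γ h) (hk : IsFlat Γ k)
    (ag : ∀ x y : ℤ, y ≤ 0 → h (x, y) = k (x, y)) {x0 : ℤ} (ne : h (x0, 1) ≠ k (x0, 1)) (x : ℤ) :
    h (x, 1) ≠ k (x, 1) := fun hx =>
  ne (row_prop hA.med hh hk (y := 0) (y' := 1) (by simp)
    Set.ordConnected_univ (fun x _ => ag x 0 le_rfl) (Set.mem_univ x) hx x0 (Set.mem_univ _))

theorem SL.sys (hA : Act G Γ) {L : Set (ℤ × ℤ → V)} (hL : Sys G Γ L) : LSys G Γ (SL L) where
  geo := by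
    rintro l ⟨h, hh, k, hk, ag, ne, hl⟩ a b
    rw [hl, hl, hL.flat h hh]
    simp
  mv := by
    rintro l ⟨h, hh, k, hk, ag, ne, hl⟩ g b
    refine ⟨_, hL.mv h hh g (b, 0), _, hL.mv k hk g (b, 0), fun x y hy => ?_, ?_, fun x => ?_⟩
    · simp only [Prod.mk_add_mk, add_zero]
      rw [ag _ y hy]
    · simp only [Prod.mk_add_mk, add_zero]
      exact fun e => ne_all hA (hL.flat h hh) (hL.flat k hk) ag ne _ (smul_left_cancel g e)
    · simp only [hl, Prod.mk_add_mk, add_zero]
  clo := by
    intro l hl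
    choose l' hl' hag using hl
    choose h hh k hk hb1 hb2 hlh using hl'
    obtain ⟨F, hF⟩ := cluster (fun n z => (h n z, k n z))
      (fun z : ℤ × ℤ => {w | Γ.dist (l 0) w ≤ z.1.natAbs + z.2.natAbs} ×ˢ
        {w | Γ.dist (l 0) w ≤ z.1.natAbs + z.2.natAbs})
      (fun z => (hA.ball _ _).prod (hA.ball _ _)) (fun n z => by
        have e1 : l 0 = h n (0, 0) := by rw [hag n 0 (by simp), hlh]
        have e2 : l 0 = k n (0, 0) := by rw [e1, hb1 n 0 0 le_rfl]
        constructor
        · have := hL.flat _ (hh n) (0, 0) z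
          simp only [zero_sub, abs_neg, Int.abs_eq_natAbs] at this
          simp only [Set.mem_ofPred_eq]
          rw [e1]
          omega
        · have := hL.flat _ (hk n) (0, 0) z
          simp only [zero_sub, abs_neg, Int.abs_eq_natAbs] at this
          simp only [Set.mem_ofPred_eq]
          rw [e2]
          omega)
    have key : ∀ R N : ℕ, ∃ n, N ≤ n ∧ ∀ z : ℤ × ℤ, z.1.natAbs ≤ R → z.2.natAbs ≤ R →
        (F z).1 = h n z ∧ (F z).2 = k n z := by
      intro R N
      obtain ⟨n, hn, hn2⟩ := hF _ (win_finite R) N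
      refine ⟨n, hn, fun z h1 h2 => ?_⟩
      rw [← hn2 z ⟨h1, h2⟩]
      exact ⟨rfl, rfl⟩
    refine ⟨fun z => (F z).1, hL.clo _ fun R => ?_, fun z => (F z).2, hL.clo _ fun R => ?_, ?_, ?_, ?_⟩
    · obtain ⟨n, _, hn⟩ := key R 0
      exact ⟨_, hh n, fun z h1 h2 => (hn z h1 h2).1⟩
    · obtain ⟨n, _, hn⟩ := key R 0
      exact ⟨_, hk n, fun z h1 h2 => (hn z h1 h2).2⟩
    · intro x y hy
      obtain ⟨n, _, hn⟩ := key (x.natAbs + y.natAbs) 0
      obtain ⟨e1, e2⟩ := hn (x, y) (by simp only []; omega) (by simp only []; omega)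
      show (F (x, y)).1 = (F (x, y)).2
      rw [e1, e2, hb1 n x y hy]
    · obtain ⟨n, _, hn⟩ := key 1 0
      obtain ⟨e1, e2⟩ := hn (0, 1) (by simp) (by simp)
      show (F (0, 1)).1 ≠ (F (0, 1)).2
      rw [e1, e2]
      exact hb2 n
    · intro x
      obtain ⟨n, hn1, hn⟩ := key x.natAbs x.natAbs
      simp only []
      rw [(hn (x, 0) (by simp) (by simp)).1, ← hlh, hag n x (by omega)]

/-- **Every closed invariant family of flats contains two flats which separate exactly at a
horizontal line which is not periodic.** -/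
theorem strict (hA : Act G Γ) (hZ : ¬ ∃ φ : Multiplicative (ℤ × ℤ) →* G, Injective φ)
    {L : Set (ℤ × ℤ → V)} (hL : Sys G Γ L) (hne : L.Nonempty) :
    ∃ l ∈ SL L, ¬ ∃ g : G, ∃ τ : ℤ, 0 < τ ∧ ∀ x, g • l x = l (x + τ) := by
  by_contra hcon
  push Not at hcon
  have hper : ∀ l ∈ SL L, ∃ g : G, ∃ τ : ℤ, 0 < τ ∧ ∀ x, g • l x = l (x + τ) := fun l hl => by
    obtain ⟨g, τ, hτ, hg⟩ := hcon l hl
    exact ⟨g, τ, hτ, hg⟩
  obtain ⟨N, hN⟩ := bounded hA (SL.sys hA hL) hper
  obtain ⟨h, hh, k, hk, hag, hne'⟩ := up_pair hA hL hne hZ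
  obtain ⟨g, τ, hτ, hg⟩ := hper (fun x => h (x, 0)) ⟨h, hh, k, hk, hag, hne', fun x => rfl⟩
  have hhf := hL.flat h hh
  -- for all `D` the flat separates from a translate at a row `n D`
  have key : ∀ D : ℕ, ∃ J : ℕ, 0 < J ∧ ∃ n : ℕ, D ≤ n ∧
      (∀ y : ℤ, -D ≤ y → y ≤ n → ∀ x, g ^ J • h (x, y) = h (x + J * τ, y)) ∧
      ∀ x, g ^ J • h (x, n + 1) ≠ h (x + J * τ, n + 1) := by
    intro D
    obtain ⟨J, hJ, hJD⟩ := both hA hhf hg D
    refine ⟨J, hJ, ?_⟩
    rcases dich hA hhf (g := g ^ J) (T := J * τ) (D := D) (fun y h1 h2 x => hJD y (by omega) x) with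
      hall | ⟨n, hn, h1, h2⟩
    · exfalso
      have hJτ : 0 < (J : ℤ) * τ := by positivity
      obtain ⟨c, hc⟩ := (many_rows hA hZ hhf (hL.conv h hh) ((J : ℤ) * τ).toNat).bddAbove
      have := hc (show (c.toNat + 1 : ℤ) ∈ _ from
        ⟨g ^ J, J * τ, hJτ, by omega, hall (c.toNat + 1) (by omega)⟩)
      omega
    · refine ⟨n, hn, fun y hy1 hy2 x => ?_, h2⟩
      rcases le_total 0 y with h0 | h0
      · exact h1 y h0 hy2 x
      · exact hJD y (by omega) x
  choose J hJ n hn hrow hsep using key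
  -- the rows `n D` are locally periodic
  have hloc : ∀ M : ℕ, ∃ D0 : ℕ, ∀ D ≥ D0, ∀ x0 : ℤ, ∃ γ : G, ∃ σ : ℤ, 0 < σ ∧ σ ≤ N ∧
      ∀ x, x0 - M ≤ x → x ≤ x0 + M → γ • h (x, n D) = h (x + σ, n D) := by
    intro M
    by_contra hcon2
    push Not at hcon2
    choose D hD x0 hbad using hcon2
    obtain ⟨h', hh', k', hk', hlim⟩ := hL.limit hA
      (fun i z => h (z + (x0 i, (n (D i) : ℤ))))
      (fun i z => g ^ J (D i) • h (z + (x0 i - J (D i) * τ, (n (D i) : ℤ))))
      (fun i => by simpa using hL.mv h hh 1 (x0 i, (n (D i) : ℤ)))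
      (fun i => hL.mv h hh _ _)
      (fun i => by
        simp only [zero_add]
        rw [hrow (D i) (n (D i)) (by omega) le_rfl]
        simp)
    have hl' : (fun x => h' (x, 0)) ∈ SL L := by
      refine ⟨h', hh', k', hk', fun x y hy => ?_, ?_, fun x => rfl⟩
      · obtain ⟨i, hi, u, hu⟩ := hlim (x.natAbs + y.natAbs) (x.natAbs + y.natAbs)
        obtain ⟨e1, e2⟩ := hu (x, y) (by simp only []; omega) (by simp only []; omega)
        have hDi := hD i
        have hni := hn (D i)
        rw [e1, e2]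
        simp only [Prod.mk_add_mk]
        rw [hrow (D i) (y + n (D i)) (by omega) (by omega)]
        congr 3
        ring
      · obtain ⟨i, hi, u, hu⟩ := hlim 1 0
        obtain ⟨e1, e2⟩ := hu (0, 1) (by simp) (by simp)
        rw [e1, e2]
        simp only [Prod.mk_add_mk]
        intro e3
        have e4 := smul_left_cancel u e3
        apply hsep (D i) (0 + (x0 i - J (D i) * τ))
        rw [add_comm (n (D i) : ℤ) 1, ← e4]
        congr 2
        ring
    obtain ⟨γ, σ, hσ, hσN, hγ⟩ := hN _ hl'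
    obtain ⟨i, hi, u, hu⟩ := hlim (M + N) 0
    obtain ⟨x, hx1, hx2, hx3⟩ := hbad i (u⁻¹ * γ * u) σ hσ hσN
    apply hx3
    have e1 := (hu (x - x0 i, 0) (by simp only []; omega) (by simp)).1
    have e2 := (hu (x - x0 i + σ, 0) (by simp only []; omega) (by simp)).1
    simp only [Prod.mk_add_mk, sub_add_cancel, zero_add] at e1 e2
    have e3 := hγ (x - x0 i)
    rw [e1, e2, show x - x0 i + σ + x0 i = x + σ by ring] at e3
    rw [mul_smul, mul_smul, e3, inv_smul_smul]
  -- so they are periodic with a bounded period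
  obtain ⟨M, P, hP, hMP⟩ := loc_glob hA (V := V) (Γ := Γ) N.factorial (Nat.factorial_pos N)
  obtain ⟨D0, hD0⟩ := hloc (M + N.factorial)
  have hrows : ∀ D ≥ D0, ∃ g : G, ∀ x, g • h (x, n D) = h (x + P, n D) := by
    intro D hD
    apply hMP (fun x => h (x, n D))
    intro x0
    obtain ⟨γ, σ, hσ, hσN, hγ⟩ := hD0 D hD x0
    obtain ⟨s, rfl⟩ := Int.eq_ofNat_of_zero_le hσ.le
    obtain ⟨c, hc⟩ := Nat.dvd_factorial (show 0 < s by omega) (show s ≤ N by omega)
    refine ⟨γ ^ c, fun x h1 h2 => ?_⟩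
    have := tr_win (l := fun x => h (x, (n D : ℤ))) (by omega) hγ c x (by omega) (by
      have e : (c : ℤ) * s = (N.factorial : ℤ) := by rw [hc]; push_cast; ring
      rw [e]
      omega)
    rw [this, hc]
    congr 2
    push_cast
    ring
  obtain ⟨c, hc⟩ := (many_rows hA hZ hhf (hL.conv h hh) P).bddAbove
  obtain ⟨g', hg'⟩ := hrows (max D0 (c.toNat + 1)) (le_max_left _ _)
  have h1 := hc (show (n (max D0 (c.toNat + 1)) : ℤ) ∈ _ from ⟨g', P, by omega, le_rfl, hg'⟩)
  have h2 := hn (max D0 (c.toNat + 1))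
  omega

/-- convex flats which agree on a lower half-plane and differ above meet exactly in it -/
theorem meetC {h k : ℤ × ℤ → V} (hh : IsFlat Γ h) (hk : IsFlat Γ k) (ck : Conv Γ k)
    (h0 : ∀ x y, y ≤ 0 → h (x, y) = k (x, y)) (h1 : ∀ x, h (x, 1) ≠ k (x, 1)) (z w : ℤ × ℤ) :
    h z = k w ↔ z = w ∧ z.2 ≤ 0 := by
  constructor
  · intro e
    rcases le_or_gt z.2 0 with hz | hz
    · have e2 : h z = k z := h0 z.1 z.2 hz
      rw [e2] at e
      exact ⟨hk.inj e, hz⟩
    · exfalso
      -- the vertex above the row `0` and below `h z`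
      have e3 : h (z.1, 0) = k (z.1, 0) := h0 z.1 0 le_rfl
      obtain ⟨u, hu, -⟩ := ck.between hk (z := (z.1, 0)) (w := w) (m := h (z.1, 1)) (by
        rw [← e3, ← e]
        have a1 := hh (z.1, 0) (z.1, 1)
        have a2 := hh (z.1, 1) z
        have a3 := hh (z.1, 0) z
        simp only [Int.abs_eq_natAbs] at a1 a2 a3
        omega)
      have d1 : Γ.dist (k (z.1, 0)) (k u) = 1 := by
        rw [hu, ← e3]
        exact hh.dist_eq (by simp)
      have d2 := hk (z.1, 0) u
      rw [d1] at d2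
      simp only [Int.abs_eq_natAbs] at d2
      rcases (show (u.1 = z.1 ∧ u.2 = 1) ∨ u.2 ≤ 0 by omega) with ⟨h4, h5⟩ | h4
      · apply h1 z.1
        rw [← hu, ← h4, ← h5]
      · have e4 : h u = k u := h0 u.1 u.2 h4
        rw [← e4] at hu
        have := hh.inj hu
        rw [this] at h4
        simp at h4
  · rintro ⟨e, hy⟩
    rw [← e]
    exact h0 z.1 z.2 hy

end Pool.Agent.H6.CF
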