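import Pool.Agent.H6.CF.Ann

/-!
# Symmetry and upper bounds for the number of blocks
-/

set_option autoImplicit false

namespace Pool.Agent.H6.CF

open Function Set

variable {V : Type*} {G : Type*} [Group G] [MulAction G V] {Γ : SimpleGraph V}

/-- exchange of the directions -/
def sw (G : Type*) (V : Type*) [Group G] [MulAction G V] (m n : ℕ) :
    Quotient (SBs G V m n) → Quotient (SBs G V n m) :=
  Quotient.map' (fun u z => u (z.2, z.1)) fun u v h => by
    obtain ⟨g, hg⟩ := h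
    exact ⟨g, fun i j hi hj => hg j i hj hi⟩

theorem sw_sw (m n : ℕ) (q : Quotient (SBs G V m n)) : sw G V n m (sw G V m n q) = q := by
  induction q using Quotient.inductionOn with
  | h u => rfl

theorem Bl_swap (f : ℤ × ℤ → V) (m n : ℕ) :
    (Bl G m n (fun z => f (z.2, z.1))).ncard = (Bl G n m f).ncard := by
  have : sw G V n m '' Bl G n m f = Bl G m n (fun z => f (z.2, z.1)) := by
    ext q
    constructor
    · rintro ⟨_, ⟨b, rfl⟩, rfl⟩
      exact ⟨(b.2, b.1), rfl⟩
    · rintro ⟨b, rfl⟩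
      exact ⟨_, ⟨(b.2, b.1), rfl⟩, rfl⟩
  rw [← this]
  exact Set.ncard_image_of_injective _ fun a b h => by
    rw [← sw_sw n m a, h, sw_sw]

/-- vertices have bounded degrees -/
theorem Act.deg (hA : Act G Γ) : ∃ D : ℕ, ∀ v, {w | Γ.Adj v w}.ncard ≤ D := by
  obtain ⟨K, hK, hGK⟩ := hA.orb
  refine ⟨∑ v ∈ hK.toFinset, {w | Γ.Adj v w}.ncard, fun v => ?_⟩
  obtain ⟨g, hg⟩ := hGK v
  have h1 : {w | Γ.Adj v w}.ncard ≤ {w | Γ.Adj (g • v) w}.ncard := by
    rw [← Set.ncard_image_of_injective {w | Γ.Adj v w} (MulAction.injective g)]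
    refine Set.ncard_le_ncard ?_ (hA.fin _)
    rintro _ ⟨w, hw, rfl⟩
    exact hA.aut g _ _ hw
  refine h1.trans ?_
  exact Finset.single_le_sum (f := fun v => {w | Γ.Adj v w}.ncard) (fun _ _ => Nat.zero_le _)
    (by rw [Set.Finite.mem_toFinset]; exact hg)

/-- one more row -/
theorem upp1 (hA : Act G Γ) {D : ℕ} (hD : ∀ v, {w | Γ.Adj v w}.ncard ≤ D) {f : ℤ × ℤ → V}
    (hf : IsFlat Γ f) (m n : ℕ) :
    (Bl G m (n + 1) f).ncard ≤ D * (Bl G m n f).ncard := by
  classical
  have f1 := Bl.finite hA hf m (n + 1)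
  have f0 := Bl.finite hA hf m n
  rw [Set.ncard_eq_toFinset_card _ f1, Set.ncard_eq_toFinset_card _ f0]
  refine (Finset.card_le_mul_card_image_of_maps_to (f := down G m n) (s := f1.toFinset)
    (t := f0.toFinset) ?_ D ?_)
  · intro q hq
    rw [Set.Finite.mem_toFinset] at hq ⊢
    obtain ⟨b, rfl⟩ := hq
    exact ⟨b, rfl⟩
  · intro b hb
    rw [Set.Finite.mem_toFinset] at hb
    obtain ⟨b0, rfl⟩ := hb
    -- representatives
    have hex : ∀ q ∈ f1.toFinset.filter (fun q => down G m n q = cl G m n f b0), ∃ (z : ℤ × ℤ) (g : G),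
        cl G m (n + 1) f z = q ∧ ∀ i j : ℕ, i ≤ m → j ≤ n →
          g • f (z.1 + i, z.2 + j) = f (b0.1 + i, b0.2 + j) := by
      intro q hq
      rw [Finset.mem_filter, Set.Finite.mem_toFinset] at hq
      obtain ⟨⟨z, rfl⟩, h2⟩ := hq
      rw [down_cl] at h2
      obtain ⟨g, hg⟩ := cl_eq.1 h2
      exact ⟨z, g, rfl, hg⟩
    choose! z g hz hg using hex
    refine le_trans ?_ (hD (f (b0.1, b0.2 + n)))
    rw [Set.ncard_eq_toFinset_card _ (hA.fin _)]
    refine Finset.card_le_card_of_injOn (fun q => g q • f ((z q).1, (z q).2 + n + 1)) ?_ ?_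
    · intro q hq
      rw [Set.Finite.coe_toFinset]
      change Γ.Adj _ _
      have := hg q hq 0 n (by omega) le_rfl
      simp only [Nat.cast_zero, add_zero] at this
      rw [← this]
      exact hA.aut _ _ _ (hf.adj (by simp))
    · intro q hq q' hq' he
      simp only [] at he
      rw [← hz q hq, ← hz q' hq', cl_eq]
      refine ⟨(g q')⁻¹ * g q, fun i j hi hj => ?_⟩
      rw [mul_smul, inv_smul_eq_iff]
      rcases Nat.lt_or_ge n j with h1 | h1
      · obtain rfl : j = n + 1 := by omega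
        have a1 : IsFlat Γ (fun w => g q • f (w + z q)) := hf.smul hA _ _
        have a2 : IsFlat Γ (fun w => g q' • f (w + z q')) := hf.smul hA _ _
        have := row_prop hA.med a1 a2 (y := n) (y' := n + 1) (by simp)
          (S := Set.Icc (0 : ℤ) m) Set.ordConnected_Icc (fun x hx => by
            obtain ⟨t, ht⟩ := Int.eq_ofNat_of_zero_le hx.1
            have hx2 := hx.2
            have e1 := hg q hq t n (by omega) le_rfl
            have e2 := hg q' hq' t n (by omega) le_rfl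
            rw [show ((x, (n : ℤ)) + z q : ℤ × ℤ) = ((z q).1 + t, (z q).2 + n) by
                ext <;> simp only [Prod.fst_add, Prod.snd_add] <;> omega,
              show ((x, (n : ℤ)) + z q' : ℤ × ℤ) = ((z q').1 + t, (z q').2 + n) by
                ext <;> simp only [Prod.fst_add, Prod.snd_add] <;> omega, e1, e2])
          (x₀ := 0) ⟨le_rfl, by omega⟩ (by
            rw [show (((0 : ℤ), (n : ℤ) + 1) + z q : ℤ × ℤ) = ((z q).1, (z q).2 + n + 1) by
                ext <;> simp only [Prod.fst_add, Prod.snd_add] <;> omega,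
              show (((0 : ℤ), (n : ℤ) + 1) + z q' : ℤ × ℤ) = ((z q').1, (z q').2 + n + 1) by
                ext <;> simp only [Prod.fst_add, Prod.snd_add] <;> omega]
            exact he) (i : ℤ) ⟨by omega, by omega⟩
        rw [show (((i : ℤ), (n : ℤ) + 1) + z q : ℤ × ℤ) = ((z q).1 + i, (z q).2 + (n + 1 : ℕ)) by
                ext <;> simp only [Prod.fst_add, Prod.snd_add] <;> push_cast <;> ring,
              show (((i : ℤ), (n : ℤ) + 1) + z q' : ℤ × ℤ) = ((z q').1 + i, (z q').2 + (n + 1 : ℕ)) by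
                ext <;> simp only [Prod.fst_add, Prod.snd_add] <;> push_cast <;> ring] at this
        exact this
      · rw [hg q hq i j hi h1, hg q' hq' i j hi h1]

theorem upp2 (hA : Act G Γ) {D : ℕ} (hD : ∀ v, {w | Γ.Adj v w}.ncard ≤ D) {f : ℤ × ℤ → V}
    (hf : IsFlat Γ f) (m n : ℕ) :
    (Bl G (m + 1) n f).ncard ≤ D * (Bl G m n f).ncard := by
  have := upp1 hA hD hf.swap n m
  rwa [Bl_swap, Bl_swap] at this

theorem upp0 (hA : Act G Γ) : ∃ E : ℕ, ∀ f : ℤ × ℤ → V, IsFlat Γ f → (Bl G 0 0 f).ncard ≤ E := by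
  classical
  obtain ⟨K, hK, hGK⟩ := hA.orb
  refine ⟨K.ncard, fun f hf => ?_⟩
  have : Bl G 0 0 f ⊆ (fun v => (Quotient.mk (SBs G V 0 0) (fun _ => v))) '' K := by
    rintro _ ⟨b, rfl⟩
    obtain ⟨g, hg⟩ := hGK (f b)
    refine ⟨g • f b, hg, ?_⟩
    simp only []
    unfold cl
    rw [Quotient.eq]
    refine ⟨g⁻¹, fun i j hi hj => ?_⟩
    obtain rfl : i = 0 := by omega
    obtain rfl : j = 0 := by omega
    simp
  exact (Set.ncard_le_ncard this (hK.image _)).trans (Set.ncard_image_le hK)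

/-- an exponential upper bound -/
theorem upp (hA : Act G Γ) : ∃ B : ℕ, 2 ≤ B ∧ ∀ f : ℤ × ℤ → V, IsFlat Γ f → ∀ d : ℕ,
    (Bl G 1 d f).ncard ≤ B ^ (d + 1) ∧ (Bl G d 1 f).ncard ≤ B ^ (d + 1) ∧
    (Bl G 1 d f).ncard ≤ B * (Bl G 0 d f).ncard := by
  obtain ⟨D, hD⟩ := hA.deg
  obtain ⟨E, hE⟩ := upp0 hA
  have key : ∀ f : ℤ × ℤ → V, IsFlat Γ f → ∀ d : ℕ,
    (Bl G 1 d f).ncard ≤ ((D + 2) * (E + 1)) ^ (d + 1) := by
    intro f hf d
    induction d with
    | zero =>
      have h1 := upp2 hA hD hf 0 0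
      have h2 := hE f hf
      simp only [zero_add, pow_one] at h1 ⊢
      calc _ ≤ _ := h1
        _ ≤ D * E := Nat.mul_le_mul_left _ h2
        _ ≤ (D + 2) * (E + 1) := Nat.mul_le_mul (by omega) (by omega)
    | succ d ih =>
      have h1 := upp1 hA hD hf 1 d
      calc _ ≤ _ := h1
        _ ≤ D * ((D + 2) * (E + 1)) ^ (d + 1) := Nat.mul_le_mul_left _ ih
        _ ≤ ((D + 2) * (E + 1)) * ((D + 2) * (E + 1)) ^ (d + 1) :=
          Nat.mul_le_mul_right _ (by nlinarith)
        _ = _ := by ring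
  refine ⟨(D + 2) * (E + 1), by nlinarith, fun f hf d => ⟨key f hf d, ?_, ?_⟩⟩
  · have := key _ hf.swap d
    rwa [Bl_swap] at this
  · have h1 := upp2 hA hD hf 0 d
    rw [zero_add] at h1
    exact h1.trans (Nat.mul_le_mul_right _ (by nlinarith))

end Pool.Agent.H6.CF
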